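import Mathlib.LinearAlgebra.Matrix.Determinant.Basic
import Mathlib.RingTheory.Kaehler.Basic
import Mathlib.RingTheory.Valuation.Basic
import Mathlib.Data.Int.ConditionallyCompleteOrder

/-!
Smooth projective curves over a field `K` in the language of function fields: points, divisors,
differentials, vector bundles, the Petri condition and the Clifford indices.
-/

open scoped TensorProduct

namespace Pool.Agent.MP_52008a_ag

/-- A point of the smooth projective curve with function field `F` over `K`: a normalized
discrete valuation of `F` that is trivial on `K`, written multiplicatively,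
`v f = exp (- ord f)`. -/
structure Place (K F : Type) [Field K] [Field F] [Algebra K F] where
  v : Valuation F (WithZero (Multiplicative ℤ))
  surj : Function.Surjective v
  triv : ∀ c : K, v (algebraMap K F c) ≤ 1

variable {K F : Type} [Field K] [Field F] [Algebra K F]

/-- The order of vanishing of a nonzero function at a point. -/
noncomputable def Place.ord (P : Place K F) (f : F) : ℤ := - WithZero.log (P.v f)

/-- `f` vanishes to order at least `n` at `P` (true for `f = 0`). -/
def Place.Ge (P : Place K F) (n : ℤ) (f : F) : Prop := P.v f ≤ WithZero.exp (-n)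

/-- Divisors: finite integer combinations of points. -/
abbrev Divisor (K F : Type) [Field K] [Field F] [Algebra K F] := Place K F →₀ ℤ

/-- The degree of a divisor. -/
def deg (D : Divisor K F) : ℤ := D.sum fun _ n => n

/-- `H^0(O(D))`: the functions `f` with `div f + D ≥ 0`. -/
def sec (D : Divisor K F) : Submodule K F where
  carrier := {f | ∀ P : Place K F, P.Ge (-D P) f}
  add_mem' := fun {f g} hf hg P => (P.v.map_add f g).trans (max_le (hf P) (hg P))
  zero_mem' := fun P => by simp [Place.Ge]
  smul_mem' := fun c f hf P => by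
    have := mul_le_mul' (P.triv c) (hf P)
    simpa [Place.Ge, Algebra.smul_def] using this

/-- The differentials vanishing to order at least `n` at `P`: sums of terms `h df` with `f`
regular at `P` and `h` vanishing to order at least `n` at `P`. -/
noncomputable def Place.forms (P : Place K F) (n : ℤ) : Submodule K Ω[F⁄K] :=
  Submodule.span K {ω | ∃ h f : F, P.Ge n h ∧ P.Ge 0 f ∧ ω = h • KaehlerDifferential.D K F f}

/-- `H^0(K_C ⊗ O(D)⁻¹)`: the differentials `ω` with `div ω ≥ D`. -/
noncomputable def forms (D : Divisor K F) : Submodule K Ω[F⁄K] := ⨅ P : Place K F, P.forms (D P)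

/-- `h^0(O(D))`. -/
noncomputable def h0 (D : Divisor K F) : ℕ := Module.finrank K (sec D)

/-- `h^1(O(D)) = h^0(K_C ⊗ O(D)⁻¹)`. -/
noncomputable def h1 (D : Divisor K F) : ℕ := Module.finrank K (forms D)

variable (K F) in
/-- The genus: the dimension of the space of regular differentials. -/
noncomputable def genus : ℕ := h1 (0 : Divisor K F)

/-- The Petri map of `O(D)`, `f ⊗ ω ↦ f ω`. -/
noncomputable def petriMap (D : Divisor K F) : sec D ⊗[K] forms D →ₗ[K] Ω[F⁄K] :=
  TensorProduct.lift
    ((Algebra.lsmul K K Ω[F⁄K] (A := F)).toLinearMap.domRestrict₁₂ (sec D) (forms D))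

variable (K F) in
/-- Petri curves: the Petri map of every line bundle is injective. -/
def IsPetri : Prop := ∀ D : Divisor K F, Function.Injective (petriMap D)

variable (K F) in
/-- The numbers `deg L - 2 (h^0(L) - 1)` for line bundles `L` with `h^0(L) ≥ 2`, `h^1(L) ≥ 2`;
the Clifford index is the least of them. -/
def cliffSet : Set ℚ :=
  {c | ∃ D : Divisor K F, 2 ≤ h0 D ∧ 2 ≤ h1 D ∧ c = deg D - 2 * ((h0 D : ℚ) - 1)}

variable (K F) in
/-- A vector bundle of rank `n` with a basis of its generic fibre `F^n`: at each point `P` the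
columns of `g P` form a basis of the stalk over the local ring, and this is the standard
lattice for all but finitely many `P`. -/
structure Bundle (n : ℕ) where
  g : Place K F → Matrix (Fin n) (Fin n) F
  det_ne : ∀ P, (g P).det ≠ 0
  fin : {P : Place K F | ¬ ((∀ i j, P.Ge 0 (g P i j)) ∧ P.ord (g P).det = 0)}.Finite

namespace Bundle

variable {n : ℕ}

/-- The stalk of the bundle at `P`. -/
def stalk (E : Bundle K F n) (P : Place K F) : Set (Fin n → F) :=
  {s | ∃ c : Fin n → F, (∀ i, P.Ge 0 (c i)) ∧ s = (E.g P).mulVec c}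

/-- The degree of the bundle. -/
noncomputable def deg (E : Bundle K F n) : ℤ := ∑ᶠ P : Place K F, - P.ord (E.g P).det

/-- The global sections. -/
def sec (E : Bundle K F n) : Submodule K (Fin n → F) where
  carrier := {s | ∀ P, s ∈ E.stalk P}
  add_mem' := fun {s t} hs ht P => by
    obtain ⟨c, hc, rfl⟩ := hs P
    obtain ⟨d, hd, h⟩ := ht P
    exact ⟨c + d, fun i => (P.v.map_add _ _).trans (max_le (hc i) (hd i)), by
      rw [Matrix.mulVec_add, h]⟩
  zero_mem' := fun P => ⟨0, fun i => by simp [Place.Ge], by simp⟩
  smul_mem' := fun a s hs P => by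
    obtain ⟨c, hc, h⟩ := hs P
    refine ⟨a • c, fun i => ?_, by rw [Matrix.mulVec_smul, h]⟩
    have := mul_le_mul' (P.triv a) (hc i)
    simpa [Place.Ge, Algebra.smul_def] using this

/-- `h^0(E)`. -/
noncomputable def h0 (E : Bundle K F n) : ℕ := Module.finrank K E.sec

/-- Semistability: `μ(E') ≤ μ(E)` for every locally free subsheaf `E'` of rank `0 < m < n`. -/
def Semistable (E : Bundle K F n) : Prop :=
  ∀ m : ℕ, 0 < m → m < n → ∀ (E' : Bundle K F m) (φ : (Fin m → F) →ₗ[F] (Fin n → F)),
    Function.Injective φ → (∀ P, Set.MapsTo φ (E'.stalk P) (E.stalk P)) →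
      (E'.deg : ℚ) / m ≤ (E.deg : ℚ) / n

/-- `γ(E) = (d - 2 (h^0(E) - n)) / n`. -/
noncomputable def gamma (E : Bundle K F n) : ℚ := ((E.deg : ℚ) - 2 * ((E.h0 : ℚ) - n)) / n

end Bundle

variable (K F) in
/-- The numbers `γ(E)` for semistable bundles `E` of rank `n` with `h^0(E) ≥ 2 n` and
`deg E / n ≤ g - 1`; the rank `n` Clifford index is the least of them. -/
def cliffSetRank (n : ℕ) : Set ℚ :=
  {c | ∃ E : Bundle K F n, E.Semistable ∧ 2 * n ≤ E.h0 ∧
    (E.deg : ℚ) / n ≤ (genus K F : ℚ) - 1 ∧ c = E.gamma}

end Pool.Agent.MP_52008a_ag
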