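import Mathlib.Algebra.Algebra.IsSimpleRing
import Mathlib.Analysis.Normed.Ring.Lemmas
import Mathlib.RingTheory.Etale.Field
import Mathlib.RingTheory.Valuation.AlgebraInstances
import Pool.Agent.MP_52008a_ag.FF.Sec

-- ======== part 0: formerly Pool.Agent.MP_52008a_ag.Ext
section MrgPart0

/-! Places in finite extensions of function fields: the norm formula and traces. -/

open WithZero Polynomial IsDedekindDomain

set_option linter.unusedSectionVars false

namespace Pool.Agent.MP_52008a_ag

variable {K F : Type} [Field K] [Field F] [Algebra K F] [IsAlgClosed K] [CharZero K]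
variable (L : Type) [Field L] [Algebra K L] [Algebra L F] [IsScalarTower K L F] [IsFF K L]
  [FiniteDimensional L F]

theorem Place.exists_below (P : Place K F) :
    ∃ a : Place K L, ∀ g, a.Ge 0 g ↔ P.Ge 0 (algebraMap L F g) := by
  obtain ⟨a, ha⟩ := exists_place (K := K) (P.v.valuationSubring.comap (algebraMap L F)) (fun h => by
    have h1 : ∀ g : L, P.Ge 0 (algebraMap L F g) := fun g => P.mem_iff.1 (by
      have : g ∈ P.v.valuationSubring.comap (algebraMap L F) := h ▸ ValuationSubring.mem_top _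
      exact this)
    have := (P.ge_of_isIntegral h1 (Algebra.IsIntegral.isIntegral P.unif⁻¹)).le
      (inv_ne_zero P.unif_ne)
    simp at this) (fun c => by
      change algebraMap L F (algebraMap K L c) ∈ P.v.valuationSubring
      rw [← IsScalarTower.algebraMap_apply]
      exact P.mem_iff.2 (P.ge_const c))
  exact ⟨a, fun g => (ha g).trans P.mem_iff⟩

/-- The place of the subfield below a place. -/
noncomputable def Place.below (P : Place K F) : Place K L := (P.exists_below L).choose

variable {L}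

theorem Place.below_ge (P : Place K F) (g : L) :
    (P.below L).Ge 0 g ↔ P.Ge 0 (algebraMap L F g) := (P.exists_below L).choose_spec g

theorem Place.below_eq {P : Place K F} {a : Place K L}
    (h : ∀ g, a.Ge 0 g → P.Ge 0 (algebraMap L F g)) : P.below L = a :=
  (Place.eq_of_le fun g hg => (P.below_ge g).2 (h g hg)).symm

variable (L) in
/-- The ramification index. -/
noncomputable def Place.ram (P : Place K F) : ℤ :=
  (exists_ram (algebraMap L F) (P.below L) P fun g => (P.below_ge g).symm).choose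

theorem Place.ram_pos (P : Place K F) : 0 < P.ram L :=
  (exists_ram (algebraMap L F) (P.below L) P fun g => (P.below_ge g).symm).choose_spec.1

theorem Place.ord_map (P : Place K F) (g : L) :
    P.ord (algebraMap L F g) = P.ram L * (P.below L).ord g :=
  (exists_ram (algebraMap L F) (P.below L) P fun g => (P.below_ge g).symm).choose_spec.2 g

theorem Place.below_ge1 (P : Place K F) (g : L) :
    (P.below L).Ge 1 g ↔ P.Ge 1 (algebraMap L F g) := by
  by_cases hg : g = 0
  · simp [hg, Place.ge_zero]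
  rw [Place.ge_iff _ hg, P.ge_iff (by simpa using hg), P.ord_map]
  have := P.ram_pos (L := L)
  constructor <;> intro h <;> nlinarith

theorem Place.ge_map {P : Place K F} {g : L} {n : ℤ} (h : (P.below L).Ge n g) :
    P.Ge (P.ram L * n) (algebraMap L F g) := by
  by_cases hg : g = 0
  · simp [hg, Place.ge_zero]
  apply P.ge_of_le
  rw [P.ord_map]
  exact mul_le_mul_of_nonneg_left (h.le hg) P.ram_pos.le

section loc

variable (F) (a : Place K L)

/-- The integral closure of the local ring of `a`. -/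
abbrev IC := integralClosure a.v.valuationSubring F

instance : IsDedekindDomain (IC F a) := by
  have : CharZero L := charZero_of_injective_algebraMap (algebraMap K L).injective
  exact integralClosure.isDedekindDomain _ L F

instance : IsFractionRing (IC F a) F := integralClosure.isFractionRing_of_finite_extension L F

instance : Module.Finite a.v.valuationSubring (IC F a) := by
  have : CharZero L := charZero_of_injective_algebraMap (algebraMap K L).injective
  exact IsIntegralClosure.finite _ L F _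

variable {F a}

/-- The place given by a prime of the integral closure. -/
noncomputable def toPlace (p : HeightOneSpectrum (IC F a)) : Place K F :=
  ⟨p.valuation F, p.valuation_surjective F, fun c => by
    have := p.valuation_le_one (K := F) (algebraMap a.v.valuationSubring (IC F a)
      ⟨algebraMap K L c, a.mem_iff.2 (a.ge_const c)⟩)
    rw [IsScalarTower.algebraMap_apply K L F]
    exact this⟩

theorem toPlace_ge (p : HeightOneSpectrum (IC F a)) (b : IC F a) : (toPlace p).Ge 0 (b : F) :=
  (Place.ge0_iff _).2 (p.valuation_le_one (K := F) b)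

theorem toPlace_ge1 (p : HeightOneSpectrum (IC F a)) (b : IC F a) :
    (toPlace p).Ge 1 (b : F) ↔ b ∈ p.asIdeal :=
  (Place.ge1_iff _).trans (p.valuation_lt_one_iff_mem (K := F) b)

theorem below_toPlace (p : HeightOneSpectrum (IC F a)) : (toPlace p).below L = a :=
  Place.below_eq fun g hg =>
    toPlace_ge p (algebraMap a.v.valuationSubring (IC F a) ⟨g, a.mem_iff.2 hg⟩)

theorem toPlace_inj : Function.Injective (toPlace (F := F) (a := a)) := fun p q h =>
  HeightOneSpectrum.eq_of_valuation_isEquiv_valuation (K := F) (by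
    have : p.valuation F = q.valuation F := congrArg Place.v h
    rw [this])

theorem ge_of_below {P : Place K F} (h : P.below L = a) (g : a.v.valuationSubring) :
    P.Ge 0 (algebraMap a.v.valuationSubring F g) := by
  subst h
  exact (P.below_ge _).1 ((Place.mem_iff _).1 g.2)

theorem exists_toPlace {P : Place K F} (h : P.below L = a) :
    ∃ p : HeightOneSpectrum (IC F a), toPlace p = P := by
  obtain ⟨p, hp⟩ := exists_hos (B := IC F a) P.v.valuationSubring P.ne_top
    fun b => P.mem_iff.2 (P.ge_of_isIntegral (ge_of_below h) (x := b.1) b.2)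
  exact ⟨p, Place.ext_ge fun f => (Place.ge0_iff _).trans ((hp f).trans P.mem_iff)⟩

theorem isIntegral_of_below {f : F} (h : ∀ P : Place K F, P.below L = a → P.Ge 0 f) :
    IsIntegral a.v.valuationSubring f := by
  obtain ⟨b, rfl⟩ := HeightOneSpectrum.mem_integers_of_valuation_le_one (R := IC F a) F f
    fun p => (Place.ge0_iff _).1 (h (toPlace p) (below_toPlace p))
  exact b.2

variable (a) in
/-- The uniformizer as an element of the local ring. -/
noncomputable def unifA : a.v.valuationSubring := ⟨a.unif, a.mem_iff.2 (a.ge_unif.mono zero_le_one)⟩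

theorem mem_max_iff (g : a.v.valuationSubring) :
    g ∈ IsLocalRing.maximalIdeal a.v.valuationSubring ↔ a.Ge 1 (g : L) := by
  rw [a.ge1_iff, Valuation.mem_maximalIdeal_iff]

theorem max_eq_span : IsLocalRing.maximalIdeal a.v.valuationSubring = Ideal.span {unifA a} := by
  ext g
  rw [mem_max_iff, Ideal.mem_span_singleton']
  refine ⟨fun h => ⟨⟨g / a.unif, a.mem_iff.2 ?_⟩, Subtype.ext (div_mul_cancel₀ _ a.unif_ne)⟩, ?_⟩
  · have := h.mul (a.ge_ord a.unif⁻¹)
    simpa [div_eq_mul_inv] using this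
  · rintro ⟨c, rfl⟩
    exact (a.mem_iff.1 c.2).mul0 a.ge_unif

instance : Finite (HeightOneSpectrum (IC F a)) := by
  have h0 : algebraMap a.v.valuationSubring (IC F a) (unifA a) ≠ 0 := fun h => by
    have : algebraMap L F a.unif = 0 := congrArg Subtype.val h
    exact a.unif_ne (by simpa using this)
  have := Ideal.finite_factors (I := Ideal.span {algebraMap _ (IC F a) (unifA a)})
    (by simpa using h0)
  refine Set.finite_univ_iff.1 (this.subset fun p _ => ?_)
  rw [Set.mem_ofPred_eq, Ideal.dvd_span_singleton, ← toPlace_ge1]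
  exact ((toPlace p).below_ge1 a.unif).1 (by rw [below_toPlace]; exact a.ge_unif)

variable (F a) in
theorem finite_fib : {P : Place K F | P.below L = a}.Finite :=
  (Set.finite_range (toPlace (F := F) (a := a))).subset fun _ h => exists_toPlace h

variable (F a) in
/-- The places above a place. -/
noncomputable def fib : Finset (Place K F) := (finite_fib F a).toFinset

theorem mem_fib {P : Place K F} : P ∈ fib F a ↔ P.below L = a := by simp [fib]

instance : Module.IsTorsionFree a.v.valuationSubring (IC F a) :=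
  have : Module.IsTorsionFree a.v.valuationSubring F := .trans_faithfulSMul _ L F
  IsIntegralClosure.isTorsionFree _ F

theorem relNorm_prime [IsFF K F] (p : HeightOneSpectrum (IC F a)) :
    Ideal.relNorm a.v.valuationSubring p.asIdeal = Ideal.span {unifA a} := by
  have : CharZero L := charZero_of_injective_algebraMap (algebraMap K L).injective
  have : CharZero (FractionRing a.v.valuationSubring) :=
    (RingHom.charZero_iff (ϕ := (FractionRing.algEquiv a.v.valuationSubring L).symm.toRingEquiv.toRingHom)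
      (FractionRing.algEquiv a.v.valuationSubring L).symm.injective).1 inferInstance
  have := p.isMaximal
  have : p.asIdeal.LiesOver (IsLocalRing.maximalIdeal a.v.valuationSubring) :=
    ⟨(IsLocalRing.eq_maximalIdeal
      (Ideal.isMaximal_comap_of_isIntegral_of_isMaximal p.asIdeal)).symm⟩
  rw [Ideal.relNorm_eq_pow_of_isMaximal p.asIdeal (IsLocalRing.maximalIdeal _),
    Ideal.inertiaDeg_eq_of_isMaximal (IsLocalRing.maximalIdeal _), ← max_eq_span]
  convert pow_one _
  let := Ideal.Quotient.field (IsLocalRing.maximalIdeal a.v.valuationSubring)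
  have := Ideal.Quotient.nontrivial_iff.2 p.isMaximal.ne_top
  refine (finrank_eq_one_iff_of_nonzero' (1 : IC F a ⧸ p.asIdeal) one_ne_zero).2 fun w => ?_
  obtain ⟨b, rfl⟩ := Ideal.Quotient.mk_surjective w
  obtain ⟨c, hc⟩ := (toPlace p).residue (toPlace_ge p b)
  let c' : a.v.valuationSubring := ⟨algebraMap K L c, a.mem_iff.2 (a.ge_const c)⟩
  refine ⟨Ideal.Quotient.mk _ c', ?_⟩
  rw [← Algebra.algebraMap_eq_smul_one, Ideal.Quotient.algebraMap_mk_of_liesOver, eq_comm,
    Ideal.Quotient.eq, ← toPlace_ge1]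
  rw [IsScalarTower.algebraMap_apply K L F] at hc
  exact hc

theorem ord_norm_int [IsFF K F] {b : IC F a} (hb : b ≠ 0) :
    a.ord (Algebra.norm L (b : F)) = ∑ P ∈ fib F a, P.ord (b : F) := by
  classical
  have : CharZero L := charZero_of_injective_algebraMap (algebraMap K L).injective
  have := Fintype.ofFinite (HeightOneSpectrum (IC F a))
  let n : HeightOneSpectrum (IC F a) → ℕ := fun p =>
    (Associates.mk p.asIdeal).count (Associates.mk (Ideal.span {b})).factors
  have h1 : ∀ p, (toPlace p).ord (b : F) = n p := fun p => by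
    have : (toPlace p).v (b : F) = p.intValuation b := p.valuation_of_algebraMap (K := F) b
    rw [Place.ord, this, p.intValuation_if_neg hb]
    simp [n]
  have h2 := Ideal.finprod_heightOneSpectrum_factorization (I := Ideal.span {b}) (by simpa using hb)
  rw [finprod_eq_prod_of_fintype] at h2
  have h3 := congrArg (Ideal.relNorm a.v.valuationSubring) h2
  simp only [HeightOneSpectrum.maxPowDividing, map_prod, map_pow, relNorm_prime,
    Ideal.relNorm_singleton] at h3
  rw [Finset.prod_pow_eq_pow_sum, Ideal.span_singleton_pow] at h3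
  obtain ⟨u, hu⟩ := Ideal.span_singleton_eq_span_singleton.1 h3
  have h4 : a.unif ^ (∑ p, n p) * (u.1 : L) = Algebra.norm L (b : F) := by
    have := congrArg (algebraMap a.v.valuationSubring L) hu
    rw [Algebra.algebraMap_intNorm (L := F), map_mul, map_pow] at this
    exact this
  have hu0 : (u.1 : L) ≠ 0 := by simp
  have hu1 : a.ord (u.1 : L) = 0 := by
    have h5 := (a.mem_iff.1 (u : a.v.valuationSubring).2).le hu0
    have h6 := (a.mem_iff.1 (u⁻¹.1 : a.v.valuationSubring).2).le (by simp)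
    have h7 : (u.1 : L) * (u⁻¹.1 : L) = 1 := by exact_mod_cast u.mul_inv
    have h8 := a.ord_mul hu0 (show (u⁻¹.1 : L) ≠ 0 by simp)
    rw [h7, Place.ord_one] at h8
    omega
  rw [← h4, a.ord_mul (pow_ne_zero _ a.unif_ne) hu0, hu1]
  have h5 : fib F a = Finset.univ.map ⟨toPlace (F := F) (a := a), toPlace_inj⟩ := by
    ext P
    simp only [mem_fib, Finset.mem_map, Finset.mem_univ, true_and, Function.Embedding.coeFn_mk]
    exact ⟨fun h => exists_toPlace h, by rintro ⟨p, rfl⟩; exact below_toPlace p⟩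
  simp [h5, h1]

/-- The norm formula. -/
theorem ord_norm [IsFF K F] (a : Place K L) {f : F} (hf : f ≠ 0) :
    a.ord (Algebra.norm L f) = ∑ P ∈ fib F a, P.ord f := by
  obtain ⟨n, d, hd, rfl⟩ := IsFractionRing.div_surjective (A := IC F a) f
  have hd0 : d ≠ 0 := nonZeroDivisors.ne_zero hd
  have hn0 : n ≠ 0 := by rintro rfl; simp at hf
  have hd1 : (d : F) ≠ 0 := by simpa using hd0
  have hn1 : (n : F) ≠ 0 := by simpa using hn0
  change a.ord (Algebra.norm L ((n : F) / d)) = ∑ P ∈ fib F a, P.ord ((n : F) / d)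
  rw [div_eq_mul_inv, map_mul, Algebra.norm_inv, a.ord_mul (Algebra.norm_ne_zero_iff.2 hn1)
    (inv_ne_zero (Algebra.norm_ne_zero_iff.2 hd1)), Place.ord_inv, ord_norm_int hn0,
    ord_norm_int hd0, ← Finset.sum_neg_distrib, ← Finset.sum_add_distrib]
  exact Finset.sum_congr rfl fun P _ => by rw [P.ord_mul hn1 (inv_ne_zero hd1), Place.ord_inv]

theorem sum_ram [IsFF K F] (a : Place K L) :
    ∑ P ∈ fib F a, P.ram L = Module.finrank L F := by
  have := ord_norm a (f := algebraMap L F a.unif) (by simpa using a.unif_ne)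
  rw [Algebra.norm_algebraMap, Place.ord_pow, Place.ord_unif, mul_one] at this
  rw [this]
  exact Finset.sum_congr rfl fun P hP => by rw [P.ord_map, mem_fib.1 hP]; simp

theorem trace_ge0 (a : Place K L) {f : F} (h : ∀ P : Place K F, P.below L = a → P.Ge 0 f) :
    a.Ge 0 (Algebra.trace L F f) :=
  a.ge_of_isIntegral (fun g : a.v.valuationSubring => a.mem_iff.1 g.2)
    (Algebra.isIntegral_trace (isIntegral_of_below h))

/-- The trace of a function taking the values `0` and `c` only above `a`. -/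
theorem trace_sub [IsFF K F] (a : Place K L) (f : F) (c : K)
    (h : ∀ P : Place K F, P.below L = a → P.Ge 1 f ∨ P.Ge 1 (f - algebraMap K F c)) :
    ∃ m : ℕ, a.Ge 1 (Algebra.trace L F f - algebraMap K L (m * c)) ∧
      ((∃ P : Place K F, P.below L = a ∧ P.Ge 1 (f - algebraMap K F c)) → c ≠ 0 → 0 < m) := by
  classical
  have : CharZero L := charZero_of_injective_algebraMap (algebraMap K L).injective
  let E := AlgebraicClosure L
  obtain ⟨V, hV, hloc⟩ := IsLocalRing.exists_factor_valuationRing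
    (algebraMap a.v.valuationSubring E)
  have hV0 : ∀ g : L, a.Ge 0 g → algebraMap L E g ∈ V := fun g hg => hV ⟨g, a.mem_iff.2 hg⟩
  have hV1 : ∀ g : L, a.Ge 1 g → V.valuation (algebraMap L E g) < 1 := fun g hg => by
    let g' : a.v.valuationSubring := ⟨g, a.mem_iff.2 (hg.mono zero_le_one)⟩
    have h1 : ¬ IsUnit ((algebraMap a.v.valuationSubring E).codRestrict V.toSubring hV g') :=
      fun h => (mem_max_iff g').2 hg (hloc.map_nonunit _ h)
    exact (V.valuation_lt_one_iff ⟨_, hV g'⟩).1 h1
  have hV2 : ∀ g : L, V.valuation (algebraMap L E g) < 1 → a.Ge 1 g := fun g hg => by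
    by_contra hn
    rw [Place.not_ge] at hn
    have h1 := (V.valuation_le_one_iff _).2 (hV0 g⁻¹ (a.ge_of_le (by simp; omega)))
    have h2 := mul_lt_one_of_lt_of_le hg h1
    rw [← map_mul, ← map_mul, mul_inv_cancel₀ hn.1] at h2
    simp at h2
  have hc1 : ∀ d : K, d ≠ 0 → V.valuation (algebraMap L E (algebraMap K L d)) = 1 := fun d hd =>
    le_antisymm ((V.valuation_le_one_iff _).2 (hV0 _ (a.ge_const d)))
      (not_lt.1 fun h => hd (Place.const_eq_zero (hV2 _ h)))
  have key : ∀ σ : F →ₐ[L] E, ∃ P : Place K F, P.below L = a ∧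
      ∀ g, P.Ge 1 g → V.valuation (σ g) < 1 := by
    intro σ
    have hinv : algebraMap L F a.unif⁻¹ ∉ V.comap σ.toRingHom := fun h => by
      have h1 : σ (algebraMap L F a.unif⁻¹) ∈ V := h
      rw [σ.commutes, ← V.valuation_le_one_iff] at h1
      have h2 := mul_lt_one_of_lt_of_le (hV1 _ a.ge_unif) h1
      rw [← map_mul, ← map_mul, mul_inv_cancel₀ a.unif_ne] at h2
      simp at h2
    obtain ⟨P, hP⟩ := exists_place (K := K) (V.comap σ.toRingHom)
      (fun h => hinv (h ▸ ValuationSubring.mem_top _)) fun d => by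
        change σ (algebraMap K F d) ∈ V
        rw [IsScalarTower.algebraMap_apply K L F, σ.commutes]
        exact hV0 _ (a.ge_const d)
    refine ⟨P, Place.below_eq fun g hg => (hP _).2 ?_, fun g hg => ?_⟩
    · change σ (algebraMap L F g) ∈ V
      rw [σ.commutes]; exact hV0 g hg
    · by_cases hg0 : g = 0
      · simp [hg0]
      have h1 : σ g⁻¹ ∉ V := fun h => by
        have := ((hP g⁻¹).2 h).le (inv_ne_zero hg0)
        have := hg.le hg0
        simp at *; omega
      rw [← V.valuation_le_one_iff, map_inv₀, map_inv₀, not_le] at h1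
      exact (one_lt_inv₀ (zero_lt_iff.2 (by simpa using hg0))).1 h1
  let c' : E := algebraMap L E (algebraMap K L c)
  have hσc : ∀ σ : F →ₐ[L] E, σ (f - algebraMap K F c) = σ f - c' := fun σ => by
    rw [map_sub, IsScalarTower.algebraMap_apply K L F, σ.commutes]
  let S := Finset.univ.filter fun σ : F →ₐ[L] E => V.valuation (σ f - c') < 1
  refine ⟨S.card, hV2 _ ?_, ?_⟩
  · rw [map_sub, trace_eq_sum_embeddings E, map_mul, map_mul, map_natCast, map_natCast,
      ← Finset.sum_filter_add_sum_filter_not Finset.univ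
        fun σ : F →ₐ[L] E => V.valuation (σ f - c') < 1, add_sub_right_comm, ← nsmul_eq_mul,
      ← Finset.sum_const, ← Finset.sum_sub_distrib]
    refine V.valuation.map_add_lt (V.valuation.map_sum_lt one_ne_zero fun σ hσ => ?_)
      (V.valuation.map_sum_lt one_ne_zero fun σ hσ => ?_)
    · exact (Finset.mem_filter.1 hσ).2
    · obtain ⟨P, hP, hP1⟩ := key σ
      rcases h P hP with h1 | h1
      · exact hP1 _ h1
      · exact absurd (hσc σ ▸ hP1 _ h1) (Finset.mem_filter.1 hσ).2
  · rintro ⟨P0, hP0, hP1⟩ hc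
    rw [Finset.card_pos]
    by_contra hS
    have hS' : ∀ σ : F →ₐ[L] E, V.valuation (σ (f - algebraMap K F c)) = 1 := fun σ => by
      have h1 : ¬ V.valuation (σ f - c') < 1 := fun h1 =>
        hS ⟨σ, Finset.mem_filter.2 ⟨Finset.mem_univ _, h1⟩⟩
      obtain ⟨P, hP, hP2⟩ := key σ
      rcases h P hP with h2 | h2
      · rw [hσc, sub_eq_neg_add, V.valuation.map_add_eq_of_lt_left, Valuation.map_neg, hc1 c hc]
        rw [Valuation.map_neg, hc1 c hc]; exact hP2 _ h2
      · exact absurd (hσc σ ▸ hP2 _ h2) h1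
    have hne : f - algebraMap K F c ≠ 0 := fun h0 => by
      obtain ⟨σ⟩ : Nonempty (F →ₐ[L] E) := ⟨IsAlgClosed.lift⟩
      have := hS' σ
      simp [h0] at this
    have h1 : a.Ge 1 (Algebra.norm L (f - algebraMap K F c)) := by
      apply a.ge_of_le
      rw [ord_norm a hne]
      refine (hP1.le hne).trans (Finset.single_le_sum (f := fun P : Place K F =>
        P.ord (f - algebraMap K F c)) (fun P hP => ?_) (mem_fib.2 hP0))
      rcases h P (mem_fib.1 hP) with h2 | h2
      · exact ((h2.mono zero_le_one).sub (P.ge_const c)).le hne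
      · exact (h2.mono zero_le_one).le hne
    have h2 := hV1 _ h1
    rw [Algebra.norm_eq_prod_embeddings L E, map_prod] at h2
    rw [Finset.prod_eq_one fun σ _ => hS' σ] at h2
    exact lt_irrefl _ h2

theorem trace_ge1 [IsFF K F] (a : Place K L) {f : F}
    (h : ∀ P : Place K F, P.below L = a → P.Ge 1 f) : a.Ge 1 (Algebra.trace L F f) := by
  obtain ⟨m, hm, _⟩ := trace_sub a f 0 fun P hP => Or.inl (h P hP)
  simpa using hm

end loc

end Pool.Agent.MP_52008a_ag

end MrgPart0

-- ======== part 1: formerly Pool.Agent.MP_52008a_ag.Diff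
section MrgPart1

/-! Differentials of a function field: local structure, canonical divisors, and the half of the
Riemann-Roch theorem that follows from the residue theorem. -/

open WithZero Polynomial
open scoped IntermediateField IntermediateField.algebraAdjoinAdjoin TensorProduct

set_option linter.unusedSectionVars false

namespace Pool.Agent.MP_52008a_ag

variable {K F : Type} [Field K] [Field F] [Algebra K F]

/-- The universal derivation. -/
noncomputable abbrev dd (K : Type) {F : Type} [Field K] [Field F] [Algebra K F] (f : F) : Ω[F⁄K] :=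
  KaehlerDifferential.D K F f

theorem der_eval {M : Type*} [AddCommGroup M] [Module F M] [Module K M] [IsScalarTower K F M]
    (D : Derivation K F M) (p : F[X]) (y : F) :
    D (p.eval y) = (∑ i ∈ Finset.range (p.natDegree + 1), y ^ i • D (p.coeff i)) +
      p.derivative.eval y • D y := by
  have h1 : ∀ N : ℕ, D (∑ i ∈ Finset.range N, p.coeff i * y ^ i) =
      (∑ i ∈ Finset.range N, y ^ i • D (p.coeff i)) +
        (∑ i ∈ Finset.range N, p.coeff i * i * y ^ (i - 1)) • D y := by
    intro N
    rw [map_sum, Finset.sum_smul, ← Finset.sum_add_distrib]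
    refine Finset.sum_congr rfl fun i _ => ?_
    rw [D.leibniz, D.leibniz_pow, add_comm, ← Nat.cast_smul_eq_nsmul F, smul_smul, smul_smul]
  rw [eval_eq_sum_range, h1, derivative_eval, sum_over_range _ (by simp)]

theorem Place.Ge.pow_sub {P : Place K F} {y s : F} {n : ℤ} (hy : P.Ge 0 y) (hs : P.Ge 0 s)
    (h : P.Ge n (y - s)) (i : ℕ) : P.Ge n (y ^ i - s ^ i) := by
  induction i with
  | zero => simpa using P.ge_zero n
  | succ i ih =>
    have : y ^ (i + 1) - s ^ (i + 1) = y * (y ^ i - s ^ i) + (y - s) * s ^ i := by ring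
    rw [this]
    exact (hy.mul0 ih).add (h.mul0' (hs.pow0 i))

theorem Place.Ge.eval_sub {P : Place K F} {y s : F} {n : ℤ} (hy : P.Ge 0 y) (hs : P.Ge 0 s)
    (h : P.Ge n (y - s)) {p : F[X]} (hp : ∀ i, P.Ge 0 (p.coeff i)) :
    P.Ge n (p.eval y - p.eval s) := by
  rw [eval_eq_sum_range, eval_eq_sum_range, ← Finset.sum_sub_distrib]
  exact Place.ge_sum fun i _ => by
    rw [← mul_sub]; exact (hp i).mul0 (hy.pow_sub hs h i)

theorem Place.Ge.eval {P : Place K F} {y : F} (hy : P.Ge 0 y) {p : F[X]}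
    (hp : ∀ i, P.Ge 0 (p.coeff i)) : P.Ge 0 (p.eval y) := by
  rw [eval_eq_sum_range]
  exact Place.ge_sum fun i _ => (hp i).mul0 (hy.pow0 i)

/-- A derivation is regular and nondegenerate at a place. -/
structure Reg (P : Place K F) (δ : Derivation K F F) : Prop where
  ge : ∀ u, P.Ge 0 u → P.Ge 0 (δ u)
  unit : ∃ t, P.Ge 0 t ∧ δ t ≠ 0 ∧ P.ord (δ t) = 0

variable [CharZero K]

theorem exists_sep_rel [IsFF K F] {t : F} (ht : Transcendental K t) (y : F) :
    ∃ p : F[X], (∀ i, p.coeff i ∈ Algebra.adjoin K {t}) ∧ p.eval y = 0 ∧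
      p.derivative.eval y ≠ 0 := by
  have : CharZero F := charZero_of_injective_algebraMap (algebraMap K F).injective
  have key : ∀ n : ℕ, ∀ p : F[X], p.natDegree ≤ n → p ≠ 0 →
      (∀ i, p.coeff i ∈ Algebra.adjoin K {t}) → p.eval y = 0 →
      ∃ p : F[X], (∀ i, p.coeff i ∈ Algebra.adjoin K {t}) ∧ p.eval y = 0 ∧
        p.derivative.eval y ≠ 0 := by
    intro n
    induction n with
    | zero =>
      intro p hp h0 _ hy
      rw [eq_C_of_natDegree_eq_zero (Nat.le_zero.1 hp)] at hy h0
      rw [eval_C] at hy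
      simp [hy] at h0
    | succ n ih =>
      intro p hp h0 hA hy
      by_cases h1 : p.derivative.eval y = 0
      · refine ih p.derivative ((natDegree_derivative_le p).trans (by omega)) (fun h => ?_)
          (fun i => ?_) h1
        · rw [eq_C_of_natDegree_eq_zero (derivative_eq_zero.1 h)] at hy h0
          rw [eval_C] at hy
          simp [hy] at h0
        · rw [coeff_derivative]
          exact mul_mem (hA _) (add_mem (natCast_mem _ i) (one_mem _))
      · exact ⟨p, hA, hy, h1⟩
  have := isAlg_adjoin ht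
  obtain ⟨p, hp, hpy⟩ := Algebra.IsAlgebraic.isAlgebraic (R := Algebra.adjoin K {t}) y
  refine key _ (p.map (algebraMap _ F)) le_rfl
    ((Polynomial.map_ne_zero_iff Subtype.val_injective).2 hp) (fun i => ?_) ?_
  · rw [coeff_map]; exact (p.coeff i).2
  · rw [eval_map_algebraMap, hpy]

variable [IsFF K F]

theorem dd_ne_zero {t : F} (ht : Transcendental K t) : dd K t ≠ 0 := by
  let A := Algebra.adjoin K {t}
  let e := Polynomial.algEquivOfTranscendental K t ht
  have he : ∀ a : A, aeval t (e.symm a) = (a : F) := fun a => by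
    obtain ⟨q, rfl⟩ := e.surjective a
    rw [e.symm_apply_apply]
    exact aeval_algHom_apply (Algebra.adjoin K {t}).val ⟨t, Algebra.self_mem_adjoin_singleton K t⟩ q
  let δ : Derivation K A F :=
    { toLinearMap := (aeval t : K[X] →ₐ[K] F).toLinearMap ∘ₗ derivative ∘ₗ e.symm.toLinearMap
      map_one_eq_zero' := by simp
      leibniz' := fun a b => by
        simp only [LinearMap.comp_apply, AlgEquiv.toLinearMap_apply, map_mul, derivative_mul,
          AlgHom.toLinearMap_apply, map_add, he, Subalgebra.smul_def, smul_eq_mul]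
        ring }
  have := finDim_adjoin ht
  have : CharZero F := charZero_of_injective_algebraMap (algebraMap K F).injective
  have h1 : Algebra.FormallyEtale A K⟮t⟯ :=
    Algebra.FormallyEtale.of_isLocalization (nonZeroDivisors A)
  have h2 : Algebra.FormallyEtale K⟮t⟯ F := Algebra.FormallyEtale.of_isSeparable _ _
  have h3 : Algebra.FormallyEtale A F := Algebra.FormallyEtale.comp A K⟮t⟯ F
  let t' : A := ⟨t, Algebra.subset_adjoin rfl⟩
  have h4 := KaehlerDifferential.tensorKaehlerEquivOfFormallyEtale_symm_D_algebraMap K A F t'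
  intro h
  have h5 : KaehlerDifferential.D K F (algebraMap A F t') = 0 := h
  rw [h5, map_zero] at h4
  have h6 := congrArg (LinearMap.liftBaseChange F δ.liftKaehlerDifferential) h4
  have h7 : e.symm t' = X := by
    rw [AlgEquiv.symm_apply_eq]; exact Subtype.ext (by simp [e, t'])
  have h8 : δ t' = 1 := by
    change aeval t (derivative (e.symm t')) = 1
    simp [h7]
  simp [h8] at h6

theorem exists_coeff {t : F} (ht : Transcendental K t) (ω : Ω[F⁄K]) : ∃ h : F, ω = h • dd K t := by
  have h1 : ∀ a ∈ Algebra.adjoin K {t}, dd K a ∈ F ∙ dd K t := fun a ha => by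
    obtain ⟨q, rfl⟩ := (Algebra.adjoin_singleton_eq_range_aeval K t).le ha
    change KaehlerDifferential.D K F (aeval t q) ∈ _
    rw [Derivation.map_aeval]
    exact Submodule.smul_mem _ _ (Submodule.mem_span_singleton_self _)
  have h2 : ∀ y : F, dd K y ∈ F ∙ dd K t := fun y => by
    obtain ⟨p, hA, hy, hd⟩ := exists_sep_rel ht y
    have h3 := der_eval (KaehlerDifferential.D K F) p y
    rw [hy, map_zero, eq_comm, add_eq_zero_iff_neg_eq] at h3
    rw [← Submodule.smul_mem_iff _ hd]
    change p.derivative.eval y • KaehlerDifferential.D K F y ∈ _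
    rw [← h3]
    exact neg_mem (Submodule.sum_mem _ fun i _ => Submodule.smul_mem _ _ (h1 _ (hA i)))
  have h3 : ω ∈ F ∙ dd K t := by
    have : (⊤ : Submodule F Ω[F⁄K]) ≤ F ∙ dd K t := by
      rw [← KaehlerDifferential.span_range_derivation, Submodule.span_le]
      rintro _ ⟨y, rfl⟩
      exact h2 y
    exact this Submodule.mem_top
  obtain ⟨h, rfl⟩ := Submodule.mem_span_singleton.1 h3
  exact ⟨h, rfl⟩

/-- A nonzero differential is a basis. -/
noncomputable def omEquiv {θ : Ω[F⁄K]} (hθ : θ ≠ 0) : F ≃ₗ[F] Ω[F⁄K] :=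
  LinearEquiv.ofBijective (LinearMap.toSpanSingleton F _ θ) ⟨LinearMap.ker_eq_bot.1
    (LinearMap.ker_toSpanSingleton F hθ), fun ω => by
      obtain ⟨t, ht⟩ := exists_transcendental K F
      obtain ⟨a, rfl⟩ := exists_coeff ht ω
      obtain ⟨b, rfl⟩ := exists_coeff ht θ
      have hb : b ≠ 0 := by rintro rfl; simp at hθ
      exact ⟨a / b, by simp [smul_smul, hb]⟩⟩

theorem omEquiv_apply {θ : Ω[F⁄K]} (hθ : θ ≠ 0) (h : F) : omEquiv hθ h = h • θ := rfl

theorem exists_smul {θ : Ω[F⁄K]} (hθ : θ ≠ 0) (ω : Ω[F⁄K]) : ∃ h : F, ω = h • θ :=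
  ⟨(omEquiv hθ).symm ω, ((omEquiv hθ).apply_symm_apply ω).symm⟩

/-- The derivation dual to a nonzero differential. -/
noncomputable def der {θ : Ω[F⁄K]} (hθ : θ ≠ 0) : Derivation K F F :=
  (omEquiv hθ).symm.toLinearMap.compDer (KaehlerDifferential.D K F)

theorem dd_eq {θ : Ω[F⁄K]} (hθ : θ ≠ 0) (g : F) : dd K g = der hθ g • θ :=
  ((omEquiv hθ).apply_symm_apply _).symm

theorem der_eq {θ : Ω[F⁄K]} (hθ : θ ≠ 0) {g h : F} (hg : dd K g = h • θ) : der hθ g = h :=
  smul_left_injective F hθ ((dd_eq hθ g).symm.trans hg)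

theorem der_self {t : F} (ht : dd K t ≠ 0) : der ht t = 1 := der_eq ht (one_smul _ _).symm

theorem der_chain {θ η : Ω[F⁄K]} (hθ : θ ≠ 0) (hη : η ≠ 0) {c : F} (h : η = c • θ) (g : F) :
    der hθ g = der hη g * c := der_eq hθ (by rw [dd_eq hη g, mul_smul, ← h])

theorem der_ne_zero {θ : Ω[F⁄K]} (hθ : θ ≠ 0) {g : F} (hg : Transcendental K g) : der hθ g ≠ 0 :=
  fun h => dd_ne_zero hg (by rw [dd_eq hθ, h, zero_smul])

variable [IsAlgClosed K]

theorem Place.dd_unif_ne (P : Place K F) : dd K P.unif ≠ 0 :=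
  dd_ne_zero (P.transcendental (by simp))

theorem Place.approx (P : Place K F) {y : F} (hy : P.Ge 0 y) (n : ℕ) :
    ∃ s ∈ Algebra.adjoin K {P.unif}, P.Ge n (y - s) := by
  induction n with
  | zero => exact ⟨0, zero_mem _, by simpa using hy⟩
  | succ n ih =>
    obtain ⟨s, hs, h⟩ := ih
    obtain ⟨c, hc⟩ := FF.exists_sub_ge P (f := P.unif ^ n) (n := n) (P.ge_of_le (by simp))
      (fun h => by have := h.le (pow_ne_zero _ P.unif_ne); simp at this) h
    have hu : P.unif ∈ Algebra.adjoin K {P.unif} := Algebra.self_mem_adjoin_singleton K _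
    refine ⟨s + c • P.unif ^ n, add_mem hs (Subalgebra.smul_mem _ (pow_mem hu _) _), ?_⟩
    rw [← sub_sub]; exact_mod_cast hc

theorem Place.reg_unif (P : Place K F) : Reg P (der P.dd_unif_ne) := by
  set δ := der P.dd_unif_ne
  have h1 : δ P.unif = 1 := der_self _
  have ht0 := P.ge_unif.mono zero_le_one
  refine ⟨fun y hy => ?_, P.unif, ht0, by simp [h1], by simp [h1]⟩
  have hq : ∀ q : K[X], δ (aeval P.unif q) = aeval P.unif (derivative q) := fun q => by
    rw [Derivation.map_aeval, h1, smul_eq_mul, mul_one]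
  have hA : ∀ n : ℕ, ∀ q : K[X], P.Ge (n + 1) (aeval P.unif q) →
      P.Ge n (aeval P.unif (derivative q)) := by
    intro n
    induction n with
    | zero => intro q _; exact P.aeval_ge ht0 _
    | succ n ih =>
      intro q hq
      have h2 : q.eval 0 = 0 := by
        have := (hq.mono (by omega : (1 : ℤ) ≤ _)).sub (P.aeval_sub (a := 0)
          (by simpa using P.ge_unif) q)
        exact Place.const_eq_zero (by simpa using this)
      obtain ⟨r, rfl⟩ := (X_dvd_iff (f := q)).2 (by rwa [coeff_zero_eq_eval_zero])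
      have h3 : P.Ge (n + 1) (aeval P.unif r) := by
        refine Place.Ge.of_mul P.unif_ne ?_
        rw [map_mul, aeval_X, mul_comm] at hq
        simpa using hq
      rw [derivative_mul, derivative_X, one_mul, map_add, map_mul, aeval_X]
      push_cast
      exact h3.add ((P.ge_unif.mul (ih r h3)).mono (by omega))
  have hA' : ∀ n : ℕ, ∀ a ∈ Algebra.adjoin K {P.unif}, P.Ge (n + 1) a → P.Ge n (δ a) := by
    intro n a ha h
    obtain ⟨q, rfl⟩ := (Algebra.adjoin_singleton_eq_range_aeval K _).le ha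
    exact (hq q).symm ▸ hA n q h
  have hA0 : ∀ a ∈ Algebra.adjoin K {P.unif}, P.Ge 0 (δ a) := by
    intro a ha
    obtain ⟨q, rfl⟩ := (Algebra.adjoin_singleton_eq_range_aeval K _).le ha
    exact (hq q).symm ▸ P.aeval_ge ht0 _
  obtain ⟨p, hp, hpy, hd⟩ := exists_sep_rel (P.transcendental (f := P.unif) (by simp)) y
  have hp0 : ∀ i, P.Ge 0 (p.coeff i) := fun i => P.mem_adjoin_ge ht0 (hp i)
  have hp1 : ∀ i, P.Ge 0 (p.derivative.coeff i) := fun i => by
    rw [coeff_derivative]
    exact (hp0 _).mul0 ((P.ge_natCast i).add P.ge_one)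
  obtain ⟨m, hm⟩ : ∃ m : ℕ, P.ord (p.derivative.eval y) = m :=
    ⟨_, (Int.toNat_of_nonneg ((hy.eval hp1).le hd)).symm⟩
  obtain ⟨s, hs, hys⟩ := P.approx hy (m + 1)
  have hs0 := P.mem_adjoin_ge ht0 hs
  have h2 : p.eval s ∈ Algebra.adjoin K {P.unif} := by
    rw [eval_eq_sum_range]
    exact Subalgebra.sum_mem _ fun i _ => mul_mem (hp i) (pow_mem hs i)
  have h3 : P.Ge (m + 1) (p.eval s) := by
    have := (hy.eval_sub hs0 hys hp0).neg
    rw [hpy] at this
    simpa using this
  have h4 := hA' m _ h2 h3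
  have h5 := der_eval δ p y
  have h6 := der_eval δ p s
  rw [hpy, map_zero] at h5
  have h7 : P.Ge m ((∑ i ∈ Finset.range (p.natDegree + 1), y ^ i • δ (p.coeff i)) -
      ∑ i ∈ Finset.range (p.natDegree + 1), s ^ i • δ (p.coeff i)) := by
    rw [← Finset.sum_sub_distrib]
    refine Place.ge_sum fun i _ => ?_
    rw [← sub_smul, smul_eq_mul]
    exact ((hy.pow_sub hs0 hys i).mul0' (hA0 _ (hp i))).mono (by push_cast; omega)
  have h8 := ((hy.eval_sub hs0 hys hp1).mul0' (hA0 s hs)).mono (by push_cast; omega : (m : ℤ) ≤ _)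
  have h9 : (δ y - δ s) * p.derivative.eval y = -(δ (p.eval s)) -
      ((∑ i ∈ Finset.range (p.natDegree + 1), y ^ i • δ (p.coeff i)) -
      ∑ i ∈ Finset.range (p.natDegree + 1), s ^ i • δ (p.coeff i)) -
      (p.derivative.eval y - p.derivative.eval s) * δ s := by
    rw [h6]
    simp only [smul_eq_mul] at h5 ⊢
    linear_combination -h5
  have h10 : P.Ge 0 (δ y - δ s) := Place.Ge.of_mul hd (by
    rw [h9, hm, zero_add]; exact (h4.neg.sub h7).sub h8)
  simpa using h10.add (hA0 s hs)

theorem Reg.unif {P : Place K F} {δ : Derivation K F F} (h : Reg P δ) :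
    δ P.unif ≠ 0 ∧ P.ord (δ P.unif) = 0 := by
  obtain ⟨t, ht, ht0, ht1⟩ := h.unit
  obtain ⟨c, hc⟩ := P.residue ht
  have h1 : P.Ge 0 ((t - algebraMap K F c) / P.unif) := by
    have := hc.mul (P.ge_ord P.unif⁻¹)
    simpa [div_eq_mul_inv] using this
  have h2 : δ t = P.unif * δ ((t - algebraMap K F c) / P.unif) +
      (t - algebraMap K F c) / P.unif * δ P.unif := by
    rw [← smul_eq_mul, ← smul_eq_mul, ← δ.leibniz, mul_div_cancel₀ _ P.unif_ne]
    simp
  have h3 := h.ge _ (P.ge_unif.mono zero_le_one)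
  by_contra hn
  have h4 : P.Ge 1 (δ P.unif) := by
    by_contra h5
    rw [Place.not_ge] at h5
    have := h3.le h5.1
    exact hn ⟨h5.1, by omega⟩
  have := (h2 ▸ (P.ge_unif.mul0' (h.ge _ h1)).add (h1.mul0 h4)).le ht0
  omega

theorem Reg.ord_der {P : Place K F} {δ : Derivation K F F} (h : Reg P δ) {g : F}
    (hg : P.ord g ≠ 0) : δ g ≠ 0 ∧ P.ord (δ g) = P.ord g - 1 := by
  have : CharZero F := charZero_of_injective_algebraMap (algebraMap K F).injective
  have hg0 : g ≠ 0 := by rintro rfl; simp at hg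
  obtain ⟨h1, h2⟩ := h.unif
  have ht := P.unif_ne
  set n := P.ord g with hn
  set u := g / P.unif ^ n with hu
  have hu0 : u ≠ 0 := div_ne_zero hg0 (zpow_ne_zero _ ht)
  have hu1 : P.ord u = 0 := by rw [hu, P.ord_div hg0 (zpow_ne_zero _ ht)]; simp [hn]
  have h3 : g = u * P.unif ^ n := (div_mul_cancel₀ _ (zpow_ne_zero _ ht)).symm
  have h4 : δ g = u * (n * (P.unif ^ (n - 1) * δ P.unif)) + P.unif ^ n * δ u := by
    conv_lhs => rw [h3]
    rw [δ.leibniz, δ.leibniz_zpow]
    simp
  have hn0 : (n : F) ≠ 0 := by exact_mod_cast hg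
  have h5 : u * (n * (P.unif ^ (n - 1) * δ P.unif)) ≠ 0 :=
    mul_ne_zero hu0 (mul_ne_zero hn0 (mul_ne_zero (zpow_ne_zero _ ht) h1))
  have h6 : P.ord (u * (n * (P.unif ^ (n - 1) * δ P.unif))) = n - 1 := by
    rw [P.ord_mul hu0 (right_ne_zero_of_mul h5), P.ord_mul hn0
      (mul_ne_zero (zpow_ne_zero _ ht) h1), P.ord_mul (zpow_ne_zero _ ht) h1]
    simp [hu1, h2]
  have h7 : P.Ge n (P.unif ^ n) := P.ge_of_le (by simp)
  have h8 := Place.add_ne_and_ord (P := P) (g := P.unif ^ n * δ u) h5 (by
    rw [h6, sub_add_cancel]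
    exact h7.mul0' (h.ge u (P.ge_of_le hu1.ge)))
  rwa [← h4, h6] at h8

theorem Reg.ge_der {P : Place K F} {δ : Derivation K F F} (h : Reg P δ) {g : F} {n : ℤ}
    (hg : P.Ge n g) : P.Ge (n - 1) (δ g) := by
  by_cases hg0 : g = 0
  · simp [hg0, Place.ge_zero]
  have h1 := hg.le hg0
  by_cases h2 : P.ord g = 0
  · exact (h.ge g (P.ge_of_le h2.ge)).mono (by omega)
  · exact P.ge_of_le (by rw [(h.ord_der h2).2]; omega)

/-- If the derivative is a unit, a function vanishing at the place is a uniformizer. -/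
theorem Reg.ord_eq_one {P : Place K F} {δ : Derivation K F F} (h : Reg P δ) {g : F}
    (hg : P.Ge 1 g) (h1 : ¬ P.Ge 1 (δ g)) : g ≠ 0 ∧ P.ord g = 1 := by
  have hg0 : g ≠ 0 := by rintro rfl; exact h1 (by simpa using P.ge_zero 1)
  refine ⟨hg0, le_antisymm (not_lt.1 fun h2 => h1 ?_) (hg.le hg0)⟩
  simpa using h.ge_der (n := 2) (P.ge_of_le h2)

/-- The order of a nonzero differential at a place. -/
noncomputable def Place.fo (P : Place K F) {θ : Ω[F⁄K]} (hθ : θ ≠ 0) : ℤ :=
  - P.ord (der hθ P.unif)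

theorem Place.der_unif_ne (P : Place K F) {θ : Ω[F⁄K]} (hθ : θ ≠ 0) : der hθ P.unif ≠ 0 :=
  der_ne_zero hθ (P.transcendental (by simp))

theorem Place.der_eq_mul (P : Place K F) {θ : Ω[F⁄K]} (hθ : θ ≠ 0) (g : F) :
    der hθ g = der P.dd_unif_ne g * der hθ P.unif := der_chain hθ _ (dd_eq hθ _) g

theorem Place.ge_der (P : Place K F) {θ : Ω[F⁄K]} (hθ : θ ≠ 0) {g : F} (hg : P.Ge 0 g) :
    P.Ge (- P.fo hθ) (der hθ g) := by
  rw [P.der_eq_mul hθ, Place.fo, neg_neg]
  exact (P.reg_unif.ge g hg).mul0 (P.ge_ord _)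

theorem Place.ord_der (P : Place K F) {θ : Ω[F⁄K]} (hθ : θ ≠ 0) {g : F} (hg : P.ord g ≠ 0) :
    P.ord (der hθ g) = P.ord g - 1 - P.fo hθ := by
  obtain ⟨h1, h2⟩ := P.reg_unif.ord_der hg
  rw [P.der_eq_mul hθ, P.ord_mul h1 (P.der_unif_ne hθ), h2, Place.fo]; ring

theorem Place.reg_iff (P : Place K F) {θ : Ω[F⁄K]} (hθ : θ ≠ 0) :
    Reg P (der hθ) ↔ P.fo hθ = 0 := by
  refine ⟨fun h => by rw [Place.fo, h.unif.2, neg_zero], fun h => ⟨fun u hu => ?_,
    P.unif, P.ge_unif.mono zero_le_one, P.der_unif_ne hθ, by rw [Place.fo] at h; omega⟩⟩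
  simpa [h] using P.ge_der hθ hu

theorem Place.fo_smul (P : Place K F) {θ : Ω[F⁄K]} (hθ : θ ≠ 0) {c : F} (hc : c • θ ≠ 0) :
    P.fo hc = P.ord c + P.fo hθ := by
  have hc0 : c ≠ 0 := by rintro rfl; simp at hc
  rw [Place.fo, Place.fo, der_chain hθ hc rfl, P.ord_mul (P.der_unif_ne hc) hc0]; ring

theorem Place.fo_dd (P : Place K F) {g : F} (hg : P.ord g ≠ 0) (h : dd K g ≠ 0) :
    P.fo h = P.ord g - 1 := by
  have := P.ord_der h hg
  rw [der_self, Place.ord_one] at this
  omega

theorem Place.forms_iff (P : Place K F) {θ : Ω[F⁄K]} (hθ : θ ≠ 0) (h : F) (n : ℤ) :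
    h • θ ∈ P.forms n ↔ P.Ge (n - P.fo hθ) h := by
  constructor
  · intro hh
    have key : ∀ ω ∈ P.forms n, P.Ge (n - P.fo hθ) ((omEquiv hθ).symm ω) := by
      intro ω hω
      induction hω using Submodule.span_induction with
      | mem ω hω =>
        obtain ⟨a, f, ha, hf, rfl⟩ := hω
        rw [map_smul, smul_eq_mul, sub_eq_add_neg]
        exact ha.mul (P.ge_der hθ hf)
      | zero => simpa using P.ge_zero _
      | add a b _ _ ha hb => rw [map_add]; exact ha.add hb
      | smul c a _ ha =>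
        rw [← IsScalarTower.algebraMap_smul F, map_smul, smul_eq_mul]
        exact (P.ge_const c).mul0 ha
    have := key _ hh
    rwa [← omEquiv_apply hθ, LinearEquiv.symm_apply_apply] at this
  · intro hh
    refine Submodule.subset_span ⟨h / der hθ P.unif, P.unif, ?_, P.ge_unif.mono zero_le_one, ?_⟩
    · have := hh.mul (P.ge_ord (der hθ P.unif)⁻¹)
      rw [Place.ord_inv, Place.fo] at this
      simpa [div_eq_mul_inv] using this
    · have := dd_eq hθ P.unif
      rw [dd] at this
      rw [this, smul_smul, div_mul_cancel₀ _ (P.der_unif_ne hθ)]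

/-- The version for a regular nondegenerate derivation. -/
theorem Reg.forms_iff {P : Place K F} {θ : Ω[F⁄K]} (hθ : θ ≠ 0) (hr : Reg P (der hθ)) (h : F)
    (n : ℤ) : h • θ ∈ P.forms n ↔ P.Ge n h := by
  rw [P.forms_iff hθ, (P.reg_iff hθ).1 hr, sub_zero]

end Pool.Agent.MP_52008a_ag

end MrgPart1

-- ======== part 2: formerly Pool.Agent.MP_52008a_ag.Div
section MrgPart2

set_option autoImplicit false

namespace Pool.Agent.MP_52008a_ag

export FF (div div_apply div_mul div_inv div_div div_zpow div_pow div_const div_zero div_one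
  div_neg div_smul deg_div mem_sec mem_sec_iff finite_ord finsum_ord deg_eq_finsum deg_zero deg_add
  deg_single degHom deg_neg deg_sub deg_zsmul deg_nonneg deg_mono le_deg eq_zero_of_deg_eq_zero
  sec_mono mul_mem_sec finrank_le_succ deg_nonneg_of_mem_sec sec_eq_bot sec_zero exists_sub_ge
  h0_le_deg h0_add_single_le h0_mono h0_zero h0_add_le finsum_pole finsum_fibre
  finrank_eq_of_unique_zero isFF_of_transcendental)

example {K F : Type} [Field K] [Field F] [Algebra K F] [IsFF K F] [CharZero K] [IsAlgClosed K]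
    (f : F) : deg (div K f) = 0 := deg_div f

end Pool.Agent.MP_52008a_ag

end MrgPart2

-- ======== part 3: formerly Pool.Agent.MP_52008a_ag.RR
section MrgPart3

/-! No differential has exactly one simple pole; half of the Riemann-Roch theorem; consequences of
the Petri condition in genus eleven. -/

open WithZero Polynomial
open scoped IntermediateField TensorProduct

set_option linter.unusedSectionVars false

namespace Pool.Agent.MP_52008a_ag

variable {K F : Type} [Field K] [Field F] [Algebra K F]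

theorem ord_gen_eq_one {w : F} (hw : FF.IsRat K w) (b : Place K F) {β : K}
    (h : b.Ge 1 (w - algebraMap K F β)) : b.ord (w - algebraMap K F β) = 1 := by
  have h0 : w - algebraMap K F β ≠ 0 := by simpa using hw.aeval_ne_zero (X_sub_C_ne_zero β)
  have h1 : ∀ q : K[X], q ≠ 0 → b.ord (w - algebraMap K F β) ∣ b.ord (aeval w q) := by
    intro q hq
    obtain ⟨r, hr, hr0⟩ := exists_eq_pow_rootMultiplicity_mul_and_not_dvd q hq β
    rw [dvd_iff_isRoot] at hr0
    obtain ⟨h2, h3⟩ := Place.unit_of_sub hr0 (b.aeval_sub h r)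
    rw [hr, map_mul, map_pow, map_sub, aeval_X, aeval_C, b.ord_mul (pow_ne_zero _ h0) h2, h3,
      Place.ord_pow, add_zero]
    exact Dvd.intro_left _ rfl
  obtain ⟨p, q, hq, hpq⟩ := hw.gen b.unif
  have hp : p ≠ 0 := by rintro rfl; exact b.unif_ne (by simpa using hpq)
  have h2 := b.ord_unif
  rw [hpq, b.ord_div (hw.aeval_ne_zero hp) (hw.aeval_ne_zero hq)] at h2
  have h3 := h2 ▸ dvd_sub (h1 p hp) (h1 q hq)
  exact Int.eq_one_of_dvd_one (zero_le_one.trans (h.le h0)) h3

variable [CharZero K] [IsFF K F] [IsAlgClosed K]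

theorem no_single_pole {θ : Ω[F⁄K]} (hθ : θ ≠ 0) (P : Place K F) {h : F} (h0 : h ≠ 0)
    (hP : P.ord h + P.fo hθ = -1) (hQ : ∀ Q : Place K F, Q ≠ P → Q.Ge (-Q.fo hθ) h) : False := by
  have hw : Transcendental K P.unif := P.transcendental (by simp)
  have hd := P.dd_unif_ne
  obtain ⟨c, rfl⟩ := exists_smul hd θ
  have hc : c ≠ 0 := by rintro rfl; simp at hθ
  set w := P.unif with hwdef
  have hg0 : h * c ≠ 0 := mul_ne_zero h0 hc
  have hP' : P.ord (h * c) = -1 := by
    rw [P.fo_smul hd, P.fo_dd (by simp [hwdef])] at hP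
    rw [P.ord_mul h0 hc]
    simp only [hwdef, Place.ord_unif] at hP
    omega
  have hQ' : ∀ Q : Place K F, Q ≠ P → Q.Ge (-Q.fo hd) (h * c) := fun Q hQP => by
    have := (hQ Q hQP).mul (Q.ge_ord c)
    rw [Q.fo_smul hd] at this
    exact this.mono (by omega)
  set g := h * c
  have hne : ∀ β : K, w - algebraMap K F β ≠ 0 := fun β =>
    sub_ne_zero.2 (transcendental_iff_ne.1 hw β)
  have key : ∀ (Q : Place K F) (β : K), Q ≠ P → Q.ord (w - algebraMap K F β) ≠ 0 →
      Q.Ge 1 ((w - algebraMap K F β) * g) := fun Q β hQP hβ => by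
    have h1 := Q.ord_der hd hβ
    rw [map_sub, der_self, Derivation.map_algebraMap, sub_zero, Place.ord_one] at h1
    exact ((Q.ge_ord (w - algebraMap K F β)).mul (hQ' Q hQP)).mono (by omega)
  have := finDim_adjoin hw
  have := isFF_adjoin hw
  have hr := FF.isRat_adjoin hw
  set w' := IntermediateField.AdjoinSimple.gen K w
  have hw' : algebraMap K⟮w⟯ F w' = w := rfl
  have hmap : ∀ β : K, algebraMap K⟮w⟯ F (w' - algebraMap K _ β) = w - algebraMap K F β :=
    fun β => by rw [map_sub, ← IsScalarTower.algebraMap_apply, hw']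
  have htr : ∀ β : K, Algebra.trace K⟮w⟯ F ((w - algebraMap K F β) * g) =
      (w' - algebraMap K _ β) * Algebra.trace K⟮w⟯ F g := fun β => by
    rw [← hmap, ← Algebra.smul_def, map_smul, smul_eq_mul]
  set T := Algebra.trace K⟮w⟯ F g
  have hne' : ∀ β : K, w' - algebraMap K _ β ≠ 0 := fun β h => hne β (by rw [← hmap, h, map_zero])
  have key2 : ∀ (b : Place K K⟮w⟯) (β : K), b ≠ P.below K⟮w⟯ → b.ord (w' - algebraMap K _ β) ≠ 0 →
      b.Ge 1 ((w' - algebraMap K _ β) * T) := fun b β hb hβ => by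
    rw [← htr]
    refine trace_ge1 b fun Q hQb => key Q β (fun h => hb (h ▸ hQb.symm)) ?_
    rw [← hmap, Q.ord_map, hQb]
    exact mul_ne_zero Q.ram_pos.ne' hβ
  have ha1 : (P.below K⟮w⟯).Ge 1 w' := (P.below_ge1 w').2 P.ge_unif
  have hwg : P.ord (w * g) = 0 := by rw [P.ord_mul P.unif_ne hg0, hP']; simp
  obtain ⟨c0, hc0⟩ := P.residue (P.ge_of_le hwg.ge)
  have hc1 : c0 ≠ 0 := by
    rintro rfl
    have := hc0.le (by simpa using mul_ne_zero P.unif_ne hg0)
    simp only [map_zero, sub_zero] at this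
    omega
  obtain ⟨m, hm, hm0⟩ := trace_sub (P.below K⟮w⟯) (w * g) c0 fun Q hQb => by
    by_cases hQP : Q = P
    · exact Or.inr (hQP ▸ hc0)
    · left
      have h1 : Q.Ge 1 w := (Q.below_ge1 w').1 (hQb ▸ ha1)
      simpa using key Q 0 hQP (by have := h1.le P.unif_ne; simp only [map_zero, sub_zero]; omega)
  have hm1 := hm0 ⟨P, rfl, hc0⟩ hc1
  have h5 := htr 0
  simp only [map_zero, sub_zero] at h5
  rw [h5] at hm
  obtain ⟨hG0, hG1⟩ := Place.unit_of_sub (mul_ne_zero (by exact_mod_cast hm1.ne') hc1) hm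
  have hreg : ∀ b : Place K K⟮w⟯, b.Ge 0 (w' * T) := fun b => by
    by_cases hb : b = P.below K⟮w⟯
    · exact b.ge_of_le (by rw [hb, hG1])
    by_cases h1 : b.ord w' = 0
    · obtain ⟨β, hβ⟩ := b.residue (b.ge_of_le h1.ge)
      have h2 := ord_gen_eq_one hr b hβ
      have h3 := key2 b β hb (by omega)
      rw [mul_comm] at h3
      exact (b.ge_of_le h1.ge).mul0 (Place.Ge.of_mul (hne' β) (by rwa [h2, zero_add]))
    · simpa using (key2 b 0 hb (by simpa using h1)).mono zero_le_one
  obtain ⟨γ, hγ⟩ := const_of_regular hreg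
  obtain ⟨b, hb⟩ := exists_place_pos hr.inv.trans
  rw [Place.ord_inv] at hb
  have hb1 : b ≠ P.below K⟮w⟯ := fun h => by
    have := (h ▸ ha1 : b.Ge 1 w').le hr.ne_zero
    omega
  have h6 := key2 b 0 hb1 (by simp only [map_zero, sub_zero]; omega)
  simp only [map_zero, sub_zero] at h6
  have h7 := h6.le hG0
  rw [hγ] at h7
  simp at h7

/-- If a differential has neither zeros nor poles, no function has exactly one simple pole. -/
theorem const_of_simple_pole {θ : Ω[F⁄K]} (hθ : θ ≠ 0) (hfo : ∀ P : Place K F, P.fo hθ = 0)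
    (P : Place K F) (g : F) (hP : P.Ge (-1) g) (hQ : ∀ Q : Place K F, Q ≠ P → Q.Ge 0 g) :
    ∃ b : K, g = algebraMap K F b := by
  refine const_of_regular fun Q => ?_
  by_cases hQP : Q = P
  · subst hQP
    by_contra hn
    rw [Place.not_ge] at hn
    have := hP.le hn.1
    exact no_single_pole hθ Q hn.1 (by rw [hfo]; omega) fun R hR => by
      simpa [hfo] using hQ R hR
  · exact hQ Q hQP

theorem fo_eq_zero {θ : Ω[F⁄K]} (hθ : θ ≠ 0) (P : Place K F)
    (h : ∀ (n : ℤ) (g : F), g • θ ∈ P.forms n ↔ P.Ge n g) : P.fo hθ = 0 := by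
  have h1 := (h (P.fo hθ) 1).1 ((P.forms_iff hθ _ _).2 (by simpa using P.ge_one))
  have h2 := (P.forms_iff hθ _ _).1 ((h 0 1).2 P.ge_one)
  have h3 := h1.le one_ne_zero
  have h4 := h2.le one_ne_zero
  simp at h3 h4
  omega

/-- The coefficients of the differentials in `forms D` with respect to `θ`. -/
noncomputable def fsec (θ : Ω[F⁄K]) (D : Divisor K F) : Submodule K F :=
  (forms D).comap ((LinearMap.toSpanSingleton F _ θ).restrictScalars K)

theorem mem_fsec' {θ : Ω[F⁄K]} {D : Divisor K F} {h : F} : h ∈ fsec θ D ↔ h • θ ∈ forms D := Iff.rfl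

theorem mem_fsec {θ : Ω[F⁄K]} (hθ : θ ≠ 0) {D : Divisor K F} {h : F} :
    h ∈ fsec θ D ↔ ∀ P : Place K F, P.Ge (D P - P.fo hθ) h := by
  rw [mem_fsec', forms, Submodule.mem_iInf]
  exact forall_congr' fun P => P.forms_iff hθ h _

/-- Coefficients and differentials. -/
noncomputable def fsecEquiv {θ : Ω[F⁄K]} (hθ : θ ≠ 0) (D : Divisor K F) :
    fsec θ D ≃ₗ[K] forms D :=
  ((omEquiv hθ).restrictScalars K).ofSubmodule' (forms D)

theorem fsecEquiv_apply {θ : Ω[F⁄K]} (hθ : θ ≠ 0) (D : Divisor K F) (h : fsec θ D) :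
    (fsecEquiv hθ D h : Ω[F⁄K]) = (h : F) • θ := rfl

theorem h1_eq {θ : Ω[F⁄K]} (hθ : θ ≠ 0) (D : Divisor K F) :
    h1 D = Module.finrank K (fsec θ D) := (fsecEquiv hθ D).finrank_eq.symm

theorem fsec_anti {θ : Ω[F⁄K]} (hθ : θ ≠ 0) {D E : Divisor K F} (h : D ≤ E) :
    fsec θ E ≤ fsec θ D := fun _ hf => (mem_fsec hθ).2 fun P =>
  ((mem_fsec hθ).1 hf P).mono (by have := h P; omega)

theorem mul_mem_fsec {θ : Ω[F⁄K]} (hθ : θ ≠ 0) {D E : Divisor K F} {f h : F} (hf : f ∈ sec D)
    (hh : h ∈ fsec θ (E + D)) : f * h ∈ fsec θ E := (mem_fsec hθ).2 fun P =>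
  ((hf P).mul ((mem_fsec hθ).1 hh P)).mono (by rw [Finsupp.add_apply]; omega)

theorem finrank_eq_of_mul {A B : Submodule K F} {f : F} (hf : f ≠ 0)
    (h : ∀ g, g ∈ A ↔ g * f ∈ B) : Module.finrank K A = Module.finrank K B := by
  let e : F ≃ₗ[K] F := (LinearEquiv.smulOfNeZero F F f hf).restrictScalars K
  have : A = B.comap e.toLinearMap := by
    ext g
    rw [h, Submodule.mem_comap, mul_comm]; rfl
  rw [this]
  exact (e.ofSubmodule' B).finrank_eq

theorem h0_add_div (D : Divisor K F) {f : F} (hf : f ≠ 0) : h0 (div K f + D) = h0 D :=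
  finrank_eq_of_mul hf fun g => forall_congr' fun P => by
    rw [← Place.ge_mul_iff hf, Finsupp.add_apply, div_apply]
    congr! 1; ring

theorem h1_add_div (D : Divisor K F) {f : F} (hf : f ≠ 0) : h1 (div K f + D) = h1 D := by
  obtain ⟨t, ht⟩ := exists_transcendental K F
  have hθ := dd_ne_zero ht
  rw [h1_eq hθ, h1_eq hθ, eq_comm]
  refine finrank_eq_of_mul hf fun g => ?_
  rw [mem_fsec hθ, mem_fsec hθ]
  refine forall_congr' fun P => ?_
  rw [← Place.ge_mul_iff hf, Finsupp.add_apply, div_apply]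
  congr! 1; ring

/-- Half of the Riemann-Roch theorem. -/
theorem rr_half [hfin : FiniteDimensional K (forms (0 : Divisor K F))] {D : Divisor K F}
    (hD : 0 ≤ D) : (h0 D : ℤ) + genus K F ≤ deg D + 1 + h1 D := by
  classical
  obtain ⟨t, ht⟩ := exists_transcendental K F
  have hθ := dd_ne_zero ht
  have hfin0 : FiniteDimensional K (fsec (dd K t) 0) := (fsecEquiv hθ 0).symm.finiteDimensional
  obtain ⟨n, hn⟩ : ∃ n : ℕ, deg D = n := ⟨_, (Int.toNat_of_nonneg (deg_nonneg hD)).symm⟩
  induction n generalizing D with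
  | zero => simp [eq_zero_of_deg_eq_zero hD hn, h0_zero, genus]
  | succ n ih =>
    obtain ⟨P, hP⟩ : ∃ P, D P ≠ 0 := by
      by_contra hcon
      push Not at hcon
      rw [Finsupp.ext hcon (g := 0), deg_zero] at hn
      omega
    obtain ⟨E, rfl⟩ : ∃ E, D = E + Finsupp.single P 1 := ⟨D - Finsupp.single P 1, by simp⟩
    have hPv : (E + Finsupp.single P 1 : Divisor K F) P = E P + 1 := by simp
    have hQv : ∀ Q, Q ≠ P → (E + Finsupp.single P 1 : Divisor K F) Q = E Q := fun Q hQ => by
      simp [Finsupp.single_eq_of_ne hQ]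
    have hE : 0 ≤ E := fun Q => by
      have := hD Q
      simp only [Finsupp.coe_zero, Pi.zero_apply] at this ⊢
      by_cases hQ : Q = P
      · subst hQ; omega
      · rwa [hQv Q hQ] at this
    have h2 : deg E = n := by rw [deg_add, deg_single] at hn; push_cast at hn; omega
    have h3 := ih hE h2
    rw [hn]
    have hfinD : FiniteDimensional K (fsec (dd K t) (E + Finsupp.single P 1)) :=
      Submodule.finiteDimensional_of_le (fsec_anti hθ hD)
    have hstep : ∀ h ∈ fsec (dd K t) E, h ∉ fsec (dd K t) (E + Finsupp.single P 1) →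
        ¬ P.Ge (E P - P.fo hθ + 1) h := fun h hh hh' hge => hh' ((mem_fsec hθ).2 fun Q => by
      by_cases hQ : Q = P
      · subst hQ; rw [hPv]; exact hge.mono (by omega)
      · rw [hQv Q hQ]; exact (mem_fsec hθ).1 hh Q)
    by_cases hs : sec (E + Finsupp.single P 1) ≤ sec E
    · have h4 : h0 (E + Finsupp.single P 1) ≤ h0 E := Submodule.finrank_mono hs
      have h5 := (finrank_le_succ (fsec (dd K t) (E + Finsupp.single P 1)) (fsec (dd K t) E)
        fun f hf hf' g hg => by
          obtain ⟨c, hc⟩ := exists_sub_ge P ((mem_fsec hθ).1 hf P) (hstep f hf hf')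
            ((mem_fsec hθ).1 hg P)
          exact ⟨c, by_contra fun hn => hstep _ (sub_mem hg (Submodule.smul_mem _ c hf)) hn hc⟩).2
      rw [← h1_eq hθ, ← h1_eq hθ] at h5
      push_cast
      omega
    · obtain ⟨f, hf, hf'⟩ := Set.not_subset.1 hs
      have h4 := h0_add_single_le E P
      have h5 : fsec (dd K t) E ≤ fsec (dd K t) (E + Finsupp.single P 1) := fun h hh => by
        by_contra hh'
        have h6 := Place.not_ge.1 (hstep h hh hh')
        have h7 := ((mem_fsec hθ).1 hh P).le h6.1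
        have h8 : ¬ P.Ge (-E P) f := fun hge => hf' fun Q => by
          by_cases hQ : Q = P
          · exact hQ ▸ hge
          · rw [← hQv Q hQ]; exact hf Q
        rw [Place.not_ge] at h8
        have h9 := (hf P).le h8.1
        rw [hPv] at h9
        refine no_single_pole hθ P (mul_ne_zero h8.1 h6.1) (by rw [P.ord_mul h8.1 h6.1]; omega)
          fun Q hQ => ((hf Q).mul ((mem_fsec hθ).1 hh Q)).mono (by rw [hQv Q hQ]; omega)
      have h6 : h1 E ≤ h1 (E + Finsupp.single P 1) := by
        rw [h1_eq hθ, h1_eq hθ]; exact Submodule.finrank_mono h5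
      push_cast
      omega

theorem rr_half' [FiniteDimensional K (forms (0 : Divisor K F))] {D : Divisor K F}
    (hD : 0 < h0 D) : (h0 D : ℤ) + genus K F ≤ deg D + 1 + h1 D := by
  obtain ⟨⟨f, hf⟩, hf0⟩ := Module.finrank_pos_iff_exists_ne_zero.1 hD
  have hf1 : f ≠ 0 := fun h => hf0 (Subtype.ext h)
  have := rr_half ((mem_sec_iff hf1).1 hf)
  rwa [h0_add_div D hf1, h1_add_div D hf1, deg_add, deg_div, zero_add] at this

theorem petriMap_tmul (D : Divisor K F) (f : sec D) (ω : forms D) :
    petriMap D (f ⊗ₜ ω) = (f : F) • (ω : Ω[F⁄K]) := rfl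

theorem IsPetri.mul_le [FiniteDimensional K (forms (0 : Divisor K F))] (h : IsPetri K F)
    (D : Divisor K F) : h0 D * h1 D ≤ genus K F := by
  obtain ⟨t, ht⟩ := exists_transcendental K F
  have hθ := dd_ne_zero ht
  have hmem : ∀ x, petriMap D x ∈ forms (0 : Divisor K F) := fun x => by
    induction x using TensorProduct.induction_on with
    | zero => simp
    | tmul f ω =>
      obtain ⟨g, rfl⟩ := (fsecEquiv hθ D).surjective ω
      rw [petriMap_tmul, fsecEquiv_apply, smul_smul]
      exact mul_mem_fsec hθ f.2 (by simp)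
    | add x y hx hy => rw [map_add]; exact add_mem hx hy
  have := LinearMap.finrank_le_finrank_of_injective (f := (petriMap D).codRestrict _ hmem)
    (fun x y hxy => h D (congrArg Subtype.val hxy))
  rwa [Module.finrank_tensorProduct] at this

theorem isPetri_of_core {θ : Ω[F⁄K]} (hθ : θ ≠ 0)
    (hcore : ∀ A B : Submodule K F, A * B ≤ fsec θ 0 → Function.Injective (Submodule.mulMap A B)) :
    IsPetri K F := by
  intro D
  have h1 := hcore (sec D) (fsec θ D) (Submodule.mul_le.2 fun f hf g hg =>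
    mul_mem_fsec hθ hf (by simpa using hg))
  let e := TensorProduct.congr (LinearEquiv.refl K (sec D)) (fsecEquiv hθ D)
  have h2 : petriMap D ∘ₗ e.toLinearMap =
      ((omEquiv hθ).restrictScalars K).toLinearMap ∘ₗ Submodule.mulMap (sec D) (fsec θ D) := by
    refine TensorProduct.ext' fun f g => ?_
    change (f : F) • ((g : F) • θ) = ((f : F) * g) • θ
    rw [mul_smul]
  have h3 : Function.Injective (petriMap D ∘ₗ e.toLinearMap) := by
    rw [h2]; exact (omEquiv hθ).injective.comp h1
  exact Function.Injective.of_comp_right (g := e) h3 e.surjective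

theorem IsPetri.gonality (h : IsPetri K F) (hg : genus K F = 11) {D : Divisor K F}
    (hD : 2 ≤ h0 D) : 7 ≤ deg D := by
  have : FiniteDimensional K (forms (0 : Divisor K F)) := Module.finite_of_finrank_eq_succ hg
  have h1 := h.mul_le D
  have h2 := rr_half' (D := D) (by omega)
  rw [hg] at h1 h2
  by_contra hn
  have h3 : h0 D + 4 ≤ Pool.Agent.MP_52008a_ag.h1 D := by omega
  nlinarith

theorem IsPetri.cliff (h : IsPetri K F) (hg : genus K F = 11) : ∀ c ∈ cliffSet K F, 5 ≤ c := by
  rintro c ⟨D, ha, hb, rfl⟩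
  have : FiniteDimensional K (forms (0 : Divisor K F)) := Module.finite_of_finrank_eq_succ hg
  have h1 := h.mul_le D
  have h2 := rr_half' (D := D) (by omega)
  rw [hg] at h1 h2
  have h3 : h0 D + Pool.Agent.MP_52008a_ag.h1 D ≤ 7 := by
    by_contra hn
    nlinarith
  have h4 : (5 : ℤ) ≤ deg D - 2 * ((h0 D : ℤ) - 1) := by omega
  exact_mod_cast h4

end Pool.Agent.MP_52008a_ag

end MrgPart3

-- marker of a merged file
example : 731051 + 125410 = 731051 + 125410 := rfl
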