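import Mathlib.Topology.Sheaves.Presheaf
import Mathlib.Algebra.Lie.OfAssociative
import Mathlib.LinearAlgebra.Dimension.OrzechProperty
import Mathlib.Order.Interval.Finset.Box
import Mathlib.Topology.Compactification.OnePoint.ProjectiveLine
import Mathlib.RingTheory.TotallySplit
import Mathlib.RingTheory.Etale.Weakly
import Pool.Agent.MP_52008a_ag.RR
import Pool.Agent.MP_52008a_ag.Petri.Explicit
import Pool.Agent.MP_52008a_ag.Som.Table
import Pool.Agent.MP_52008a_ag.Petri.Core

-- ======== part 0: formerly Pool.Agent.MP_52008a_ag.FinalAlg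
section MrgPart0

/-! Genus, Petri property and Clifford index from the description of the regular differentials. -/

open scoped TensorProduct

set_option linter.unusedSectionVars false

namespace Pool.Agent.MP_52008a_ag

variable {K F : Type} [Field K] [Field F] [Algebra K F]

theorem two_le_finrank {V : Submodule K F} [FiniteDimensional K V] {f g : F} (hf : f ∈ V)
    (hg : g ∈ V) (h : LinearIndependent K ![f, g]) : 2 ≤ Module.finrank K V := by
  have h1 : LinearIndependent K ![(⟨f, hf⟩ : V), ⟨g, hg⟩] := by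
    refine LinearIndependent.of_comp V.subtype ?_
    convert h using 1
    ext i; fin_cases i <;> rfl
  simpa using h1.fintype_card_le_finrank

variable [CharZero K] [IsFF K F] [IsAlgClosed K]

theorem final_of {θ : Ω[F⁄K]} {u : ℤ → F} {x : F} {W : Submodule K F}
    (hW : W = Submodule.span K (Set.range fun j : Fin 12 => u (j : ℕ)))
    (per : ∀ n, u (n + 7) = x * u n) (hx : Transcendental K x)
    (hind : LinearIndependent K fun j : Fin 4 => u (j : ℕ))
    (hreg : ∀ j : ℕ, j < 12 → u j • θ ∈ forms (0 : Divisor K F))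
    (heul : ∀ ω ∈ forms (0 : Divisor K F), ∃ g ∈ W, ω = g • θ) (hθ : θ ≠ 0)
    (h11 : Module.finrank K W = 11)
    (hcore : ∀ A B : Submodule K F, A * B ≤ W → Function.Injective (Submodule.mulMap A B))
    (hD : ∃ D : Divisor K F, (∀ P, D P = max 0 (-P.ord x)) ∧ deg D = 7) :
    genus K F = 11 ∧ IsPetri K F ∧ IsLeast (cliffSet K F) 5 := by
  have hW' : fsec θ 0 = W := by
    refine le_antisymm (fun h hh => ?_) (hW ▸ Submodule.span_le.2 ?_)
    · obtain ⟨g, hg, h1⟩ := heul _ hh
      have h2 : h = g := smul_left_injective F hθ h1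
      rwa [h2]
    · rintro _ ⟨j, rfl⟩
      exact hreg j j.2
  have hg : genus K F = 11 := by rw [genus, h1_eq hθ, hW', h11]
  have hP : IsPetri K F := isPetri_of_core hθ (hW' ▸ hcore)
  refine ⟨hg, hP, ?_, hP.cliff hg⟩
  obtain ⟨D, hD, hD7⟩ := hD
  have hx0 : x ≠ 0 := by rintro rfl; exact hx isAlgebraic_zero
  have ha : 2 ≤ h0 D := two_le_finrank (f := 1) (g := x)
    (fun P => P.ge_of_le (by rw [hD]; simp)) (fun P => P.ge_of_le (by rw [hD]; omega))
    (LinearIndependent.pair_iff.2 fun s t hst => by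
      by_cases ht : t = 0
      · simpa [ht] using hst
      · refine absurd ?_ (transcendental_iff_ne.1 hx (-s / t))
        rw [Algebra.smul_def, Algebra.smul_def] at hst
        have : algebraMap K F t ≠ 0 := by simpa using ht
        rw [map_div₀, map_neg, eq_div_iff this]
        linear_combination hst)
  have hfin : FiniteDimensional K (fsec θ 0) := Module.finite_of_finrank_eq_succ (hW' ▸ h11)
  have hD0 : 0 ≤ D := fun P => by rw [hD]; exact le_max_left _ _
  have hfinD : FiniteDimensional K (fsec θ D) :=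
    Submodule.finiteDimensional_of_le (fsec_anti hθ hD0)
  have hmem : ∀ j : ℕ, j < 5 → u j ∈ fsec θ D := fun j hj => (mem_fsec hθ).2 fun P => by
    have h1 := (mem_fsec hθ).1 (hreg j (by omega)) P
    have h2 := (mem_fsec hθ).1 (hreg (j + 7) (by omega)) P
    push_cast at h2
    rw [per, mul_comm] at h2
    simp only [Finsupp.coe_zero, Pi.zero_apply] at h1 h2
    rw [hD]
    rcases le_total 0 (-P.ord x) with h | h
    · rw [max_eq_right h]
      exact Place.Ge.of_mul hx0 (h2.mono (by omega))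
    · rwa [max_eq_left h]
  have hb : 2 ≤ h1 D := by
    rw [h1_eq hθ]
    refine two_le_finrank (hmem 0 (by omega)) (hmem 1 (by omega)) ?_
    have h24 : 2 ≤ 4 := by norm_num
    have h6 := hind.comp (Fin.castLE h24) (Fin.castLE_injective _)
    convert h6 using 1
    ext i; fin_cases i <;> rfl
  have h5 := hP.cliff hg _ ⟨D, ha, hb, rfl⟩
  refine ⟨D, ha, hb, le_antisymm h5 ?_⟩
  have : (2 : ℚ) ≤ h0 D := by exact_mod_cast ha
  rw [hD7]
  push_cast
  linarith

end Pool.Agent.MP_52008a_ag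

end MrgPart0

-- ======== part 1: formerly Pool.Agent.MP_52008a_ag.Reg
section MrgPart1

/-!
The local structure of the curve: the differentials `u j θ` are regular.
-/

namespace Pool.Agent.MP_52008a_ag

section val

variable {K F : Type} [Field K] [Field F] [Algebra K F] [IsFF K F] [IsAlgClosed K]

/-- Evaluation at a place. -/
noncomputable def Place.ev (P : Place K F) : P.v.integer →+* K where
  toFun f := P.val f
  map_one' := Place.val_eq (by simpa using P.ge_zero 1)
  map_zero' := Place.val_eq (by simpa using P.ge_zero 1)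
  map_add' f g := Place.val_eq (by
    have := (P.sub_val (P.ge0_iff.2 f.2)).add (P.sub_val (P.ge0_iff.2 g.2))
    convert this using 1
    push_cast [map_add]
    ring)
  map_mul' f g := Place.val_eq (by
    have := ((P.sub_val (P.ge0_iff.2 f.2)).mul0' (P.ge0_iff.2 g.2)).add
      ((P.ge_const (P.val f)).mul0 (P.sub_val (P.ge0_iff.2 g.2)))
    convert this using 1
    push_cast [map_mul]
    ring)

/-- Constants as regular functions. -/
def Place.cst (P : Place K F) (c : K) : P.v.integer := ⟨algebraMap K F c, P.triv c⟩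

theorem Place.ev_cst (P : Place K F) (c : K) : P.ev (P.cst c) = c :=
  Place.val_eq (by simpa [Place.cst] using P.ge_zero 1)

theorem Place.ev_ne (P : Place K F) {f : P.v.integer} (h : P.ev f ≠ 0) :
    (f : F) ≠ 0 ∧ P.ord (f : F) = 0 :=
  Place.unit_of_sub h (P.sub_val (P.ge0_iff.2 f.2))

theorem Place.ev_eq_zero (P : Place K F) {f : P.v.integer} (h : P.Ge 1 (f : F)) : P.ev f = 0 :=
  Place.val_eq (by simpa using h)

theorem Place.ev_ne_zero (P : Place K F) {f : P.v.integer} (h0 : (f : F) ≠ 0)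
    (h : P.ord (f : F) = 0) : P.ev f ≠ 0 := fun h1 => by
  have h2 := P.sub_val (P.ge0_iff.2 f.2)
  have h3 : P.val (f : F) = 0 := h1
  rw [h3, map_zero, sub_zero] at h2
  have := h2.le h0
  omega

end val

section der

variable {K F : Type} [Field K] [Field F] [Algebra K F] {c x : F} {u : ℤ → F}

/-- The derivative sequence. -/
theorem Somos.zs (h : Somos c x u) (hu : ∀ n, u n ≠ 0) (D : Derivation K F F)
    (hD : ∀ n, D (sf u n) = sS u n) : ∃ lam : F, Zs c u fun i => D (u i) - i * lam * u i := by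
  let L : ℤ → F := fun n => D (u n) / u n
  have hL : ∀ n, D (u n) = L n * u n := fun n => (div_mul_cancel₀ _ (hu n)).symm
  have h1 : ∀ n, L (n + 1) - L n - sf u n * sf u (n + 1) =
      L n - L (n - 1) - sf u (n - 1) * sf u n := by
    intro n
    have e : sf u n * u n ^ 2 = u (n + 1) * u (n - 1) := by
      have := hu n
      rw [sf]; field_simp
    have e2 := congrArg D e
    simp only [Derivation.leibniz, Derivation.leibniz_pow, smul_eq_mul, hD, hL, sS,
      nsmul_eq_mul] at e2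
    apply mul_left_cancel₀ (mul_ne_zero (sf_ne hu n) (pow_ne_zero 2 (hu n)))
    push_cast at e2
    linear_combination (-1) * e2 + (L (n + 1) + L (n - 1)) * e
  have h2 : ∀ n, L (n + 1) - L n - sf u n * sf u (n + 1) = L 1 - L 0 - sf u 0 * sf u 1 := by
    intro n
    induction n using Int.induction_on with
    | zero => simp
    | succ k ih => rw [h1, add_sub_cancel_right, ih]
    | pred k ih => rw [← ih, h1 (-k), sub_add_cancel]
  set lam := L 1 - L 0 - sf u 0 * sf u 1
  have h3 : ∀ n, sf u n * sf u (n + 1) * (u n * u (n + 1)) = u (n - 1) * u (n + 2) := by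
    intro n
    have := hu n
    have := hu (n + 1)
    simp only [sf, add_sub_cancel_right, show n + 1 + 1 = n + 2 by ring]
    field_simp
  refine ⟨lam, fun i => ?_, fun i => ?_⟩
  · simp only [hL]
    push_cast
    linear_combination (u i * u (i + 1)) * h2 i + h3 i
  · have a := h2 i
    have b := h2 (i - 1)
    rw [sub_add_cancel] at b
    have s := h.sf_sum hu i
    have e : sf u i * u i ^ 2 = u (i + 1) * u (i - 1) := by
      have := hu i
      rw [sf]; field_simp
    simp only [hL]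
    push_cast
    linear_combination (u (i - 1) * u (i + 1)) * (a + b) + u i ^ 2 * s -
      (sf u i * (sf u (i + 1) + sf u (i - 1)) - c ^ 2) * e

end der

section curve

variable {K E F Γ : Type} [Field K] [Field E] [Field F] [Algebra K E] [Algebra E F] [Algebra K F]
  [IsScalarTower K E F] [IsAlgClosed K] [CharZero K] [LinearOrderedCommGroupWithZero Γ]
  {c : K} {a : ℕ → K} {φ : ℤ → E} {Y : F} {v : Valuation K Γ}

theorem IsCurve.der_sf [IsFF K F] (h : IsCurve c a φ Y) (n : ℤ) :
    der (h.J.sw_neF (F := F)) (sf (su φ Y) n) = sS (su φ Y) n := by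
  rw [sf_su h.Y_ne, sS_su h.Y_ne]
  exact der_eq _ (h.J.dd_sf n)

theorem IsCurve.sw_reg [IsFF K F] (h : IsCurve c a φ Y) (P : Place K F) {g : F} (hg : P.Ge 0 g) :
    g • sw K F φ ∈ P.forms 0 := by
  obtain ⟨hS, hu⟩ := h.somos
  obtain ⟨b, ν, l, e, -, -, hb⟩ := hS.place hu P
  have h0 : ∀ n : ℤ, n = b + 2 ∨ n = b + 2 + 1 → P.ord (sf (su φ Y) n) = 0 := fun n hn => by
    rw [ord_sf P hu hb, if_neg (by omega), if_neg (by omega), if_neg (by omega)]
    simp
  have key : ∀ n : ℤ, P.ord (sf (su φ Y) n) = 0 → sS (su φ Y) n ≠ 0 ∧ P.ord (sS (su φ Y) n) = 0 →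
      g • sw K F φ ∈ P.forms 0 := by
    intro n h1 ⟨h2, h3⟩
    refine Submodule.subset_span ⟨g / sS (su φ Y) n, sf (su φ Y) n, hg.div0 h3,
      P.ge_of_le h1.ge, ?_⟩
    have := dd_eq (h.J.sw_neF (F := F)) (sf (su φ Y) n)
    rw [h.der_sf, dd] at this
    rw [this, smul_smul, div_mul_cancel₀ _ h2]
  rcases hS.unit_S hu P (b + 2) (h0 _ (Or.inl rfl)) (h0 _ (Or.inr rfl)) with h1 | h1
  · exact key _ (h0 _ (Or.inl rfl)) h1
  · exact key _ (h0 _ (Or.inr rfl)) h1

theorem IsCurve.sU_shift (h : IsCurve c a φ Y) (t : K) :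
    sU a φ Y = ∑ j ∈ Finset.range 12, ((j - t) * a j) • su φ Y j := by
  simp only [sU, sub_mul, sub_smul, Finset.sum_sub_distrib, mul_smul t, ← Finset.smul_sum, h.root,
    smul_zero, sub_zero]

/-- Places where `x` has a zero or a pole. -/
theorem IsCurve.ends (h : IsCurve c a φ Y) (P : Place K F) (hx : P.ord (su φ Y 7) ≠ 0) :
    sU a φ Y ≠ 0 ∧ ∀ j : ℕ, j < 12 → P.ord (sU a φ Y) ≤ P.ord (su φ Y j) := by
  obtain ⟨hS, hu⟩ := h.somos
  obtain ⟨b, ν, l, e, he, hl, hb⟩ := hS.place hu P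
  obtain ⟨hp, hn⟩ := ends_lemma P _ hu a h.ne h.root he hb
  have lo : ∀ i : ℤ, ν + i * l ≤ P.ord (su φ Y i) := fun i => by
    rw [hb]
    split_ifs <;> omega
  have main : ∀ (k t : ℕ), k < 12 → k ≠ t → (∀ j : ℕ, j < 12 → j ≠ k → j ≠ t →
      P.ord (su φ Y k) < P.ord (su φ Y j)) → P.ord (su φ Y k) ≤ P.ord (su φ Y t) →
      sU a φ Y ≠ 0 ∧ ∀ j : ℕ, j < 12 → P.ord (sU a φ Y) ≤ P.ord (su φ Y j) := by
    intro k t hk hkt h1 h2
    have hc : ((k : K) - t) * a k ≠ 0 :=
      mul_ne_zero (sub_ne_zero.mpr (by exact_mod_cast hkt)) (h.ne k)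
    have := P.sum_ne (Finset.range 12) (fun j : ℕ => (((j : K) - t) * a j) • su φ Y j)
      (Finset.mem_range.mpr hk) (smul_ne_zero hc (hu k)) fun i hi hik => by
        rw [P.ord_smul hc]
        by_cases hit : i = t
        · simp [hit, P.ge_zero]
        · exact (P.ge_of_le (h1 i (Finset.mem_range.mp hi) hik hit)).smul _
    rw [← h.sU_shift, P.ord_smul hc] at this
    refine ⟨this.1, fun j hj => ?_⟩
    rw [this.2]
    by_cases h3 : j = k
    · rw [h3]
    by_cases h4 : j = t
    · rw [h4]; exact h2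
    exact (h1 j hj h3 h4).le
  rcases lt_or_gt_of_ne (show l ≠ 0 by omega) with h1 | h1
  · obtain ⟨h2, h3⟩ := hn h1
    have e10 : P.ord (su φ Y (10 : ℕ)) = ν + 10 * l := by
      rw [hb, if_neg (by omega)]; simp
    refine main 10 11 (by norm_num) (by norm_num) (fun j hj a b => ?_) ?_
    · have := lo j
      have : 9 * l ≤ (j : ℤ) * l := by nlinarith [show (j : ℤ) ≤ 9 by omega]
      omega
    · rw [e10, hb, if_pos (by omega)]
      push_cast
      omega
  · obtain ⟨h2, h3⟩ := hp h1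
    have e1 : P.ord (su φ Y (1 : ℕ)) = ν + l := by
      rw [hb, if_neg (by omega)]; simp
    refine main 1 0 (by norm_num) (by norm_num) (fun j hj a b => ?_) ?_
    · have := lo j
      have : 2 * l ≤ (j : ℤ) * l := by nlinarith [show (2 : ℤ) ≤ j by omega]
      omega
    · rw [e1, hb, if_pos (by omega)]
      push_cast
      omega

/-- Places where `x` is a unit. -/
theorem IsCurve.middle [IsFF K F] (h : IsCurve c a φ Y) (P : Place K F)
    (hx : P.ord (su φ Y 7) = 0) {ρ : K} (hρ : ρ ≠ 0)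
    (hρx : P.Ge 1 (su φ Y 7 - algebraMap K F (ρ ^ 7))) {k : ℕ}
    (hk : Peak v (fun i => a i * ρ ^ i) k) :
    ∃ m : ℤ, (∀ j, P.ord (su φ Y m) ≤ P.ord (su φ Y j)) ∧
      P.ord (su φ Y (k + 1)) = P.ord (su φ Y m) ∧
      ∃ g s : F, P.Ge 0 g ∧ (s = 1 ∨ s = der (h.J.sw_neF (F := F)) g) ∧ sU a φ Y * s ≠ 0 ∧
        P.ord (sU a φ Y * s) = P.ord (su φ Y m) := by
  obtain ⟨hS, hu⟩ := h.somos
  obtain ⟨b, ν, l, e, he, hl, hb⟩ := hS.place hu P
  obtain rfl : l = 0 := by omega
  set u := su φ Y with hud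
  set D := der (h.J.sw_neF (F := F)) with hD
  obtain ⟨lam, hZ⟩ := hS.zs hu D h.der_sf
  set m := b + 1 with hm
  have hνm : P.ord (u m) = ν := by rw [hb, if_neg (by omega)]; simp
  have hmin : ∀ j, P.ord (u m) ≤ P.ord (u j) := fun j => by
    rw [hνm, hb]
    split_ifs <;> omega
  let Z : ℤ → F := fun i => D (u i) - i * lam * u i
  let y : ℤ → F := fun i => (u m)⁻¹ * u i
  let z : ℤ → F := fun i => (u m)⁻¹ * (Z i - Z m / u m * u i)
  have hum := hu m
  have hZ' : Zs (algebraMap K F c) y z := by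
    simpa using (hZ.shift (Z m / u m)).scale (u m)⁻¹ one_ne_zero
  have hS' : Somos (algebraMap K F c) (u 7) y := by
    simpa using hS.scale (u m)⁻¹ one_ne_zero
  have hy0 : ∀ i, y i ≠ 0 := fun i => mul_ne_zero (inv_ne_zero hum) (hu i)
  have hoy : ∀ i, P.ord (y i) = P.ord (u i) - P.ord (u m) := fun i => by
    rw [P.ord_mul (inv_ne_zero hum) (hu i), P.ord_inv]; ring
  have h1 : ∀ i, P.v (y i) ≤ 1 := fun i =>
    P.ge0_iff.1 (P.ge_of_le (by rw [hoy]; have := hmin i; omega))
  have h2 : ∀ i, ¬ (7 : ℤ) ∣ i - b → P.ord (y i) = 0 := fun i hi => by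
    rw [hoy, hνm, hb, if_neg hi]; simp
  have h3 : ∀ i, P.v (z i) ≤ 1 := hZ'.bound P.v (P.triv c) h1
    (fun i hi => by rw [P.v_eq (hy0 i), h2 i hi]; simp) (m := m) (by omega)
    (by simp only [z]; field_simp; ring)
  let y' : ℤ → P.v.integer := fun i => ⟨y i, h1 i⟩
  let z' : ℤ → P.v.integer := fun i => ⟨z i, h3 i⟩
  let x' : P.v.integer := ⟨u 7, P.ge0_iff.1 (P.ge_of_le hx.ge)⟩
  have hx' : P.ev x' = ρ ^ 7 := Place.val_eq hρx
  have tr : ∀ {s t : P.v.integer}, (s : F) = t → P.ev s = P.ev t := fun h =>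
    congrArg _ (Subtype.ext h)
  have hSK : Somos c (ρ ^ 7) fun i => P.ev (y' i) :=
    { hc := h.J.hc
      x_ne := pow_ne_zero _ hρ
      r1 := fun n => by
        have := tr (s := y' (n + 2) * y' (n - 2))
          (t := y' (n + 1) * y' (n - 1) - P.cst c * y' n ^ 2) (hS'.r1 n)
        rwa [map_mul, map_sub, map_mul, map_mul, map_pow, P.ev_cst] at this
      r2 := fun n => by
        have := tr (s := y' (n + 3) * y' (n - 3))
          (t := P.cst c ^ 2 * (y' (n + 1) * y' (n - 1)) + P.cst c * y' n ^ 2) (hS'.r2 n)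
        rwa [map_mul, map_add, map_mul, map_mul, map_mul, map_pow, map_pow, P.ev_cst] at this
      per := fun n => by
        simpa [hx'] using tr (s := y' (n + 7)) (t := x' * y' n) (hS'.per n) }
  have hZK : Zs c (fun i => P.ev (y' i)) fun i => P.ev (z' i) :=
    { b1 := fun i => by
        simpa using tr (s := y' i * z' (i + 1) - y' (i + 1) * z' i)
          (t := y' (i - 1) * y' (i + 2)) (hZ'.b1 i)
      b2 := fun i => by
        have := tr (s := y' (i - 1) * z' (i + 1) - y' (i + 1) * z' (i - 1))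
          (t := P.cst c ^ 2 * (y' (i - 1) * y' (i + 1)) - y' i ^ 2) (hZ'.b2 i)
        rwa [map_sub, map_mul, map_mul, map_sub, map_mul, map_mul, map_pow, map_pow,
          P.ev_cst] at this }
  have hroot : ∑ j ∈ Finset.range 12, algebraMap K F (a j) * u j = 0 := by
    simpa [Algebra.smul_def] using h.root
  have hU : sU a φ Y = ∑ j ∈ Finset.range 12, j * algebraMap K F (a j) * u j := by
    simp [sU, Algebra.smul_def, hud]
  let U' : P.v.integer := ∑ j ∈ Finset.range 12, j * P.cst (a j) * y' j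
  let H' : P.v.integer := ∑ j ∈ Finset.range 12, P.cst (a j) * z' j
  have hU' : (U' : F) = (u m)⁻¹ * sU a φ Y := by
    rw [hU, Finset.mul_sum]
    simp only [U', AddSubmonoidClass.coe_finset_sum]
    exact Finset.sum_congr rfl fun j _ => by push_cast; simp only [Place.cst, y', y]; ring
  have hH' : (H' : F) = -lam * U' := by
    have e1 := congrArg D hroot
    simp only [map_sum, Derivation.leibniz, Derivation.map_algebraMap, smul_eq_mul, mul_zero,
      add_zero, map_zero] at e1
    have e2 : (H' : F) = ∑ j ∈ Finset.range 12, ((u m)⁻¹ * (algebraMap K F (a j) * D (u j)) -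
        lam * (u m)⁻¹ * (j * algebraMap K F (a j) * u j) -
        (u m)⁻¹ * (Z m / u m) * (algebraMap K F (a j) * u j)) := by
      simp only [H', AddSubmonoidClass.coe_finset_sum]
      exact Finset.sum_congr rfl fun j _ => by
        push_cast; simp only [Place.cst, z', z, Z]; push_cast; ring
    rw [e2, hU', hU]
    simp only [Finset.sum_sub_distrib, ← Finset.mul_sum, e1, hroot]
    ring
  have hsm := smooth v hρ hk hSK hZK ⟨m, P.ev_ne_zero (hy0 m) (h2 m (by omega))⟩ (by
    have : ((∑ j ∈ Finset.range 12, P.cst (a j) * y' j : P.v.integer) : F) =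
        (0 : P.v.integer) := by
      simp only [AddSubmonoidClass.coe_finset_sum]
      push_cast
      simp only [Place.cst, y', y, mul_left_comm _ (u m)⁻¹, ← Finset.mul_sum, hroot, mul_zero]
    simpa [P.ev_cst] using tr this)
  have hk1 := (P.ev_ne hsm.1).2
  have fin : ∀ (s : F) (w : P.v.integer), P.ev w ≠ 0 → (w : F) = U' * s →
      sU a φ Y * s ≠ 0 ∧ P.ord (sU a φ Y * s) = P.ord (u m) := by
    intro s w hw e
    obtain ⟨w0, w1⟩ := P.ev_ne hw
    have : sU a φ Y * s = w * u m := by rw [e, hU']; field_simp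
    rw [this]
    exact ⟨mul_ne_zero w0 hum, by rw [P.ord_mul w0 hum, w1, zero_add]⟩
  refine ⟨m, hmin, by have := hoy (k + 1); simp only [y'] at hk1; omega, ?_⟩
  by_cases hUz : P.ev U' = 0
  · have hH : P.ev H' ≠ 0 := by
      have := hsm.2.resolve_left (by simpa [U', P.ev_cst] using hUz)
      simpa [H', P.ev_cst] using this
    refine ⟨y (m + 1), _, P.ge0_iff.2 (h1 _), Or.inr rfl,
      fin _ (U' * z' (m + 1) - H' * y' (m + 1)) ?_ ?_⟩
    · rw [map_sub, map_mul, map_mul, hUz, zero_mul, zero_sub, neg_ne_zero]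
      exact mul_ne_zero hH (P.ev_ne_zero (hy0 _) (h2 _ (by omega)))
    · have : D (y (m + 1)) = z (m + 1) + lam * y (m + 1) := by
        simp only [y, z, Z, Derivation.leibniz, Derivation.leibniz_inv, smul_eq_mul]
        push_cast
        field_simp
        ring
      push_cast
      rw [this, hH']
      simp only [y', z']
      ring
  · exact ⟨0, 1, P.ge_zero 0, Or.inl rfl, fin 1 U' hUz (by simp)⟩

theorem IsCurve.x_trans (h : IsCurve c a φ Y) (hv : IsCoef v a) :
    Transcendental K (su φ Y 7) := by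
  haveI := h.isFF
  obtain ⟨hS, hu⟩ := h.somos
  intro ha
  obtain ⟨x0, hx0⟩ := exists_const_of_algebraic ha
  have hx00 : x0 ≠ 0 := fun h0 => hu 7 (by rw [← hx0, h0, map_zero])
  obtain ⟨ρ, hρ⟩ := IsAlgClosed.exists_pow_nat_eq x0 (show 0 < 7 by norm_num)
  have hρ0 : ρ ≠ 0 := fun h0 => hx00 (by rw [← hρ, h0]; simp)
  obtain ⟨k, hk⟩ := exists_peak hv hρ0
  have ht : Transcendental K (sf (su φ Y) (k + 1))⁻¹ := fun h1 => by
    rw [IsAlgebraic.inv_iff, sf_su h.Y_ne] at h1
    exact (transcendental_algebraMap_iff (algebraMap E F).injective).2 (h.J.sf_trans _) h1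
  obtain ⟨P, hP⟩ := exists_place_pos ht
  obtain ⟨m, h1, h2, -⟩ := h.middle P (by rw [← hx0, P.ord_const]) hρ0
    (by rw [hρ, hx0, sub_self]; exact P.ge_zero 1) hk
  rw [P.ord_inv, sf, P.ord_div (mul_ne_zero (hu _) (hu _)) (pow_ne_zero _ (hu _)),
    P.ord_mul (hu _) (hu _), P.ord_pow, h2] at hP
  have a1 := h1 (k + 1 + 1)
  have a2 := h1 (k + 1 - 1)
  push_cast at hP
  omega

theorem IsCurve.sU_ne (h : IsCurve c a φ Y) (hv : IsCoef v a) : sU a φ Y ≠ 0 := by
  haveI := h.isFF
  obtain ⟨P, hP⟩ := exists_place_pos (h.x_trans hv)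
  exact (h.ends P hP.ne').1

theorem IsCurve.regular (h : IsCurve c a φ Y) (hv : IsCoef v a) (j : ℕ) (hj : j < 12) :
    su φ Y j • sTheta a φ Y ∈ forms (0 : Divisor K F) := by
  haveI := h.isFF
  obtain ⟨hS, hu⟩ := h.somos
  have hU := h.sU_ne hv
  rw [forms, Submodule.mem_iInf]
  intro P
  rw [Finsupp.zero_apply, sTheta, smul_smul]
  have hge : ∀ s : F, s ≠ 0 → P.ord s ≤ P.ord (su φ Y j) → P.Ge 0 (su φ Y j * s⁻¹) :=
    fun s hs h1 => P.ge_of_le (by rw [P.ord_mul (hu _) (inv_ne_zero hs), P.ord_inv]; omega)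
  by_cases hx : P.ord (su φ Y 7) = 0
  · obtain ⟨x0, hx0⟩ := P.residue (P.ge_of_le hx.ge)
    have hx00 : x0 ≠ 0 := by
      rintro rfl
      have := hx0.le (by simpa using hu 7)
      simp [hx] at this
    obtain ⟨ρ, hρ⟩ := IsAlgClosed.exists_pow_nat_eq x0 (show 0 < 7 by norm_num)
    have hρ0 : ρ ≠ 0 := fun h0 => hx00 (by rw [← hρ, h0]; simp)
    obtain ⟨k, hk⟩ := exists_peak hv hρ0
    obtain ⟨m, h1, -, g, s, hg, hs, h2, h3⟩ := h.middle P hx hρ0 (by rwa [hρ]) hk
    have h4 := hge _ h2 (h3 ▸ h1 j)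
    rcases hs with rfl | rfl
    · exact h.sw_reg P (by simpa using h4)
    · refine Submodule.subset_span ⟨_, g, h4, hg, ?_⟩
      have := dd_eq (h.J.sw_neF (F := F)) g
      rw [dd] at this
      rw [this, smul_smul]
      congr 1
      have := right_ne_zero_of_mul h2
      field_simp
  · exact h.sw_reg P (hge _ hU ((h.ends P hx).2 j hj))

end curve

end Pool.Agent.MP_52008a_ag

end MrgPart1

-- ======== part 2: formerly Pool.Agent.MP_52008a_ag.Deg
section MrgPart2

set_option autoImplicit false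

namespace Pool.Agent.MP_52008a_ag

variable {K E F Γ : Type} [Field K] [Field E] [Field F] [Algebra K E] [Algebra E F] [Algebra K F]
  [IsScalarTower K E F] [IsAlgClosed K] [CharZero K] [LinearOrderedCommGroupWithZero Γ]
  {c : K} {a : ℕ → K} {φ : ℤ → E} {Y : F} {v : Valuation K Γ}

theorem IsJ.irreducible (h : IsJ K E c φ) (hv : IsCoef v a) : Irreducible (Phi a φ) := by
  have := h.isFF
  obtain ⟨r, hr⟩ := h.table
  refine FF.irreducible_of h (fun j h0 => ?_) hr fun G _ hc => hc.x_trans hv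
  obtain ⟨τ, hτ, -, hs⟩ := hv.size
  have := hs j
  rw [h0, map_zero] at this
  exact pow_ne_zero _ hτ.ne' this.symm

theorem IsCurve.deg_x (h : IsCurve c a φ Y) (hv : IsCoef v a) :
    ∃ D : Divisor K F, (∀ P, D P = max 0 (-P.ord (su φ Y 7))) ∧ deg D = 7 := by
  have := h.J.isFF
  have := FF.finiteDimensional_curve h
  have : IsFF K F := IsFF.of_finite E
  obtain ⟨r, hr⟩ := h.J.table
  exact FF.deg_x_of h hr (h.J.irreducible hv)

theorem IsCurve.deg_M (h : IsCurve c a φ Y) (hv : IsCoef v a) :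
    ∃ M : Divisor K F, (∀ P, (∀ i : ℕ, i < 5 → -M P ≤ P.ord (su φ Y i)) ∧
      ∃ i : ℕ, i < 5 ∧ -M P = P.ord (su φ Y i)) ∧ deg M = 13 := by
  have := h.J.isFF
  have := FF.finiteDimensional_curve h
  have : IsFF K F := IsFF.of_finite E
  obtain ⟨r, hr⟩ := h.J.table
  exact FF.deg_M_of h hr (h.J.irreducible hv)

theorem IsCurve.euler (h : IsCurve c a φ Y) (hv : IsCoef v a) {ω : Ω[F⁄K]}
    (hω : ω ∈ forms (0 : Divisor K F)) : ∃ g ∈ sW K φ Y, ω = g • sTheta a φ Y := by
  obtain ⟨r, hr⟩ := h.J.table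
  exact FF.euler_of' h (h.J.irreducible hv) (h.sU_ne hv) hr h.J.sw_ne h.J.form0 h.J.j1 hω

end Pool.Agent.MP_52008a_ag

end MrgPart2

-- ======== part 3: formerly Pool.Agent.MP_52008a_ag.Bun
section MrgPart3

/-!
The semistable bundle of rank two and degree thirteen with four sections.
-/

open Matrix

namespace Pool.Agent.MP_52008a_ag

variable {K F : Type} [Field K] [Field F] [Algebra K F]

/-- The determinant of two vectors of the plane. -/
def det2 (s w : Fin 2 → F) : F := s 0 * w 1 - s 1 * w 0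

namespace Bundle

theorem finite_ord {n : ℕ} (E : Bundle K F n) :
    (Function.support fun P : Place K F => - P.ord (E.g P).det).Finite :=
  E.fin.subset fun P hP h => hP (by simp [h.2])

/-- The divisor of the determinant. -/
noncomputable def dv {n : ℕ} (E : Bundle K F n) : Divisor K F :=
  Finsupp.ofSupportFinite _ E.finite_ord

theorem dv_apply {n : ℕ} (E : Bundle K F n) (P : Place K F) : E.dv P = - P.ord (E.g P).det := rfl

theorem deg_dv {n : ℕ} (E : Bundle K F n) : MP_52008a_ag.deg E.dv = E.deg := deg_eq_finsum _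

theorem det2_ge (E : Bundle K F 2) (P : Place K F) {s w : Fin 2 → F} (hs : s ∈ E.stalk P)
    (hw : w ∈ E.stalk P) : P.Ge (P.ord (E.g P).det) (det2 s w) := by
  obtain ⟨c, hc, rfl⟩ := hs
  obtain ⟨d, hd, rfl⟩ := hw
  have : det2 ((E.g P).mulVec c) ((E.g P).mulVec d) = (c 0 * d 1 - c 1 * d 0) * (E.g P).det := by
    simp only [det2, Matrix.mulVec, dotProduct, Fin.sum_univ_two, Matrix.det_fin_two]
    ring
  rw [this]
  exact (((hc 0).mul0 (hd 1)).sub ((hc 1).mul0 (hd 0))).mul0 (P.ge_ord _)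

end Bundle

/-- The line bundle of a divisor. -/
noncomputable def lineBundle (D : Divisor K F) : Bundle K F 1 where
  g P := !![P.unif ^ (-D P)]
  det_ne P := by simpa using zpow_ne_zero _ P.unif_ne
  fin := D.support.finite_toSet.subset fun P hP => by
    by_contra h
    have h0 : D P = 0 := by simpa using h
    refine hP ⟨fun i j => ?_, by simp [h0]⟩
    fin_cases i; fin_cases j
    simpa [h0] using P.ge_one

theorem deg_lineBundle (D : Divisor K F) : (lineBundle D).deg = deg D := by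
  rw [deg_eq_finsum, Bundle.deg]
  simp [lineBundle]

theorem Bundle.Semistable.deg_le {E : Bundle K F 2} (h : E.Semistable) {s : Fin 2 → F}
    (hs : s ≠ 0) (D : Divisor K F)
    (hD : ∀ P, ∃ c : Fin 2 → F, (∀ i, P.Ge (D P) (c i)) ∧ s = (E.g P).mulVec c) :
    2 * MP_52008a_ag.deg D ≤ E.deg := by
  have := h 1 one_pos one_lt_two (lineBundle D)
    ((LinearMap.toSpanSingleton F _ s).comp (LinearMap.proj 0))
    (fun a b hab => by
      funext i
      rw [Subsingleton.elim i 0]
      exact smul_left_injective F hs hab)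
    (fun P x hx => by
      obtain ⟨a, ha, rfl⟩ := hx
      obtain ⟨c, hc, rfl⟩ := hD P
      refine ⟨(P.unif ^ (-D P) * a 0) • c, fun i => ?_, ?_⟩
      · have h1 : P.Ge (-D P) (P.unif ^ (-D P)) := P.ge_of_le (by simp)
        simpa using (h1.mul0' (ha 0)).mul (hc i)
      · simp [lineBundle, Matrix.mulVec_smul, Matrix.mulVec, dotProduct])
  rw [deg_lineBundle] at this
  have h2 : (2 * MP_52008a_ag.deg D : ℚ) ≤ E.deg := by
    push_cast at this
    linarith
  exact_mod_cast h2

variable [IsAlgClosed K] [CharZero K] [IsFF K F]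

theorem Bundle.Semistable.finite {E : Bundle K F 2} (h : E.Semistable) (hd : E.deg ≤ 21) :
    FiniteDimensional K E.sec ∧ E.h0 ≤ 22 := by
  classical
  obtain ⟨P⟩ : Nonempty (Place K F) := inferInstance
  choose φ hφ using fun n : ℤ => P.exists_functional n
  let Ψ : E.sec →ₗ[K] (Fin 11 × Fin 2 → K) := LinearMap.pi fun p =>
    (φ (p.1 : ℕ)).comp (((LinearMap.proj p.2).comp
      (Matrix.mulVecLin (E.g P)⁻¹)).restrictScalars K ∘ₗ E.sec.subtype)
  have hΨ : Function.Injective Ψ := by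
    rw [injective_iff_map_eq_zero]
    intro s hs
    by_contra h0
    have h0' : (s : Fin 2 → F) ≠ 0 := fun h => h0 (Subtype.ext h)
    obtain ⟨c, hc, hsc⟩ := s.2 P
    have hinv : (E.g P)⁻¹.mulVec s = c := by
      rw [hsc, Matrix.mulVec_mulVec, Matrix.nonsing_inv_mul _ (E.det_ne P).isUnit,
        Matrix.one_mulVec]
    have hge : ∀ n : ℕ, n ≤ 11 → ∀ i, P.Ge n (c i) := by
      intro n
      induction n with
      | zero => exact fun _ => hc
      | succ n ih =>
        intro hn i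
        have h1 := congrFun hs (⟨n, hn⟩, i)
        have h2 : φ n (c i) = 0 := by simpa [Ψ, hinv] using h1
        exact_mod_cast (hφ n _ (ih (by omega) i)).mp h2
    have := h.deg_le h0' (Finsupp.single P 11) fun Q => by
      by_cases hQ : P = Q
      · subst hQ
        exact ⟨c, by simpa using hge 11 le_rfl, hsc⟩
      · rw [Finsupp.single_eq_of_ne' hQ]
        exact s.2 Q
    rw [deg_single] at this
    omega
  refine ⟨FiniteDimensional.of_injective Ψ hΨ, ?_⟩
  simpa [Bundle.h0] using LinearMap.finrank_le_finrank_of_injective hΨ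

theorem exists_isLeast (hg : genus K F = 11) {γ0 : ℚ} (h0 : γ0 ∈ cliffSetRank K F 2) :
    ∃ γ ≤ γ0, IsLeast (cliffSetRank K F 2) γ := by
  have key : ∀ γ ∈ cliffSetRank K F 2, ∃ n : ℕ, γ = (n : ℚ) / 2 - 20 := by
    rintro γ ⟨E, hs, h1, h2, rfl⟩
    rw [hg] at h2
    have h3 : E.deg ≤ 20 := by
      have : (E.deg : ℚ) ≤ 20 := by push_cast at h2; linarith
      exact_mod_cast this
    have h4 := (hs.finite (by omega)).2
    obtain ⟨s, hs0⟩ : ∃ s : E.sec, s ≠ 0 := by
      haveI := Module.nontrivial_of_finrank_pos (R := K) (M := E.sec)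
        (by unfold Bundle.h0 at h1; omega)
      exact exists_ne 0
    have h5 := hs.deg_le (s := s) (fun h => hs0 (Subtype.ext h)) 0 fun P => s.2 P
    rw [deg_zero] at h5
    refine ⟨(E.deg - 2 * E.h0 + 44).toNat, ?_⟩
    have : (((E.deg - 2 * E.h0 + 44).toNat : ℕ) : ℤ) = E.deg - 2 * E.h0 + 44 :=
      Int.toNat_of_nonneg (by omega)
    have h6 : (((E.deg - 2 * E.h0 + 44).toNat : ℕ) : ℚ) = E.deg - 2 * E.h0 + 44 := by
      exact_mod_cast this
    rw [h6, Bundle.gamma]
    push_cast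
    ring
  classical
  have hex : ∃ n : ℕ, (n : ℚ) / 2 - 20 ∈ cliffSetRank K F 2 := by
    obtain ⟨n, hn⟩ := key _ h0
    exact ⟨n, hn ▸ h0⟩
  have hl : IsLeast (cliffSetRank K F 2) ((Nat.find hex : ℚ) / 2 - 20) := by
    refine ⟨Nat.find_spec hex, fun γ hγ => ?_⟩
    obtain ⟨n, rfl⟩ := key _ hγ
    have : (Nat.find hex : ℚ) ≤ n := by exact_mod_cast Nat.find_min' hex hγ
    linarith
  exact ⟨_, hl.2 h0, hl⟩

/-- The bundle generated by four vectors. -/
theorem exists_bundle (s : Fin 4 → Fin 2 → F) (N : Divisor K F)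
    (h1 : ∀ (P : Place K F) i j, P.Ge (-N P) (det2 (s i) (s j)))
    (h2 : ∀ P : Place K F, ∃ i j, det2 (s i) (s j) ≠ 0 ∧ P.ord (det2 (s i) (s j)) = -N P) :
    ∃ E : Bundle K F 2, E.deg = deg N ∧ ∀ i, s i ∈ E.sec := by
  choose a b h0 hab using h2
  have hdet : ∀ P, (Matrix.of fun i j : Fin 2 => (![s (a P), s (b P)] : Fin 2 → Fin 2 → F) j i).det =
      det2 (s (a P)) (s (b P)) := fun P => by
    simp [Matrix.det_fin_two, det2, mul_comm]
  let E : Bundle K F 2 :=
    { g := fun P => Matrix.of fun i j : Fin 2 => (![s (a P), s (b P)] : Fin 2 → Fin 2 → F) j i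
      det_ne := fun P => by rw [hdet]; exact h0 P
      fin := by
        refine (N.support.finite_toSet.union (Set.finite_iUnion fun p : Fin 4 × Fin 2 =>
          finite_ord (K := K) (s p.1 p.2))).subset fun P hP => ?_
        by_contra h
        simp only [Set.mem_union, Finset.mem_coe, Finsupp.mem_support_iff, Set.mem_iUnion,
          Function.mem_support, not_or, not_not, not_exists] at h
        refine hP ⟨fun i j => ?_, by rw [hdet, hab, h.1, neg_zero]⟩
        fin_cases j
        · exact P.ge_of_le (h.2 (a P, i)).ge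
        · exact P.ge_of_le (h.2 (b P, i)).ge }
  refine ⟨E, ?_, fun k P => ?_⟩
  · rw [deg_eq_finsum, Bundle.deg]
    simp only [E, hdet, hab, neg_neg]
  · have hge : ∀ x, P.Ge (-N P) x → P.Ge 0 (x / det2 (s (a P)) (s (b P))) := fun x hx => by
      have := hx.mul (P.ge_ord (det2 (s (a P)) (s (b P)))⁻¹)
      rw [P.ord_inv, hab] at this
      simpa [div_eq_mul_inv] using this
    refine ⟨![det2 (s k) (s (b P)) / det2 (s (a P)) (s (b P)),
      det2 (s (a P)) (s k) / det2 (s (a P)) (s (b P))], fun i => ?_, ?_⟩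
    · fin_cases i
      · exact hge _ (h1 P _ _)
      · exact hge _ (h1 P _ _)
    · have := h0 P
      funext i
      fin_cases i <;>
        simp only [E, Matrix.mulVec, dotProduct, Fin.sum_univ_two, Matrix.of_apply] <;>
        simp <;> field_simp <;> simp only [det2] <;> ring

theorem bundle_part (u : ℕ → F) (c : K) (hc : c ≠ 0) (hu : ∀ i < 5, u i ≠ 0)
    (hrel : u 4 * u 0 = u 3 * u 1 - algebraMap K F c * u 2 ^ 2)
    (hind : LinearIndependent K fun i : Fin 4 => u i) (M : Divisor K F)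
    (hM : ∀ P, (∀ i : ℕ, i < 5 → -M P ≤ P.ord (u i)) ∧ ∃ i : ℕ, i < 5 ∧ -M P = P.ord (u i))
    (hdeg : deg M = 13) (hgon : ∀ D : Divisor K F, 2 ≤ h0 D → 7 ≤ deg D)
    (hg : genus K F = 11) : ∃ γ ≤ (9 / 2 : ℚ), IsLeast (cliffSetRank K F 2) γ := by
  have u0 := hu 0 (by norm_num)
  have hlin : ∀ a0 a1 a2 a3 : K, a0 • u 0 + a1 • u 1 + a2 • u 2 + a3 • u 3 = 0 →
      a0 = 0 ∧ a1 = 0 ∧ a2 = 0 ∧ a3 = 0 := by
    intro a0 a1 a2 a3 h
    have := Fintype.linearIndependent_iff.mp hind ![a0, a1, a2, a3]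
      (by simpa [Fin.sum_univ_four] using h)
    exact ⟨this 0, this 1, this 2, this 3⟩
  let s : Fin 4 → Fin 2 → F := ![![1, 0], ![0, 1], ![-u 2 / u 0, u 1 / u 0],
    ![-u 3 / u 0, algebraMap K F c * u 2 / u 0]]
  have h34 : det2 (s 2) (s 3) = u 4 / u 0 := by
    simp only [det2, s]
    simp
    field_simp
    linear_combination -hrel
  have hcase : ∀ i j, ∃ (m : ℕ) (b : K), m < 5 ∧ det2 (s i) (s j) = b • (u m / u 0) := by
    have hsw : ∀ i j, (∃ (m : ℕ) (b : K), m < 5 ∧ det2 (s i) (s j) = b • (u m / u 0)) →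
        ∃ (m : ℕ) (b : K), m < 5 ∧ det2 (s j) (s i) = b • (u m / u 0) := by
      rintro i j ⟨m, b, hm, h⟩
      exact ⟨m, -b, hm, by rw [neg_smul, ← h, det2, det2]; ring⟩
    have hd : ∀ i, ∃ (m : ℕ) (b : K), m < 5 ∧ det2 (s i) (s i) = b • (u m / u 0) :=
      fun i => ⟨0, 0, by norm_num, by rw [det2]; simp [mul_comm]⟩
    have a01 : ∃ (m : ℕ) (b : K), m < 5 ∧ det2 (s 0) (s 1) = b • (u m / u 0) :=
      ⟨0, 1, by norm_num, by simp [det2, s, u0]⟩
    have a02 : ∃ (m : ℕ) (b : K), m < 5 ∧ det2 (s 0) (s 2) = b • (u m / u 0) :=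
      ⟨1, 1, by norm_num, by simp [det2, s]⟩
    have a03 : ∃ (m : ℕ) (b : K), m < 5 ∧ det2 (s 0) (s 3) = b • (u m / u 0) :=
      ⟨2, c, by norm_num, by simp [det2, s, Algebra.smul_def, mul_div_assoc]⟩
    have a12 : ∃ (m : ℕ) (b : K), m < 5 ∧ det2 (s 1) (s 2) = b • (u m / u 0) :=
      ⟨2, 1, by norm_num, by simp [det2, s, neg_div]⟩
    have a13 : ∃ (m : ℕ) (b : K), m < 5 ∧ det2 (s 1) (s 3) = b • (u m / u 0) :=
      ⟨3, 1, by norm_num, by simp [det2, s, neg_div]⟩
    have a23 : ∃ (m : ℕ) (b : K), m < 5 ∧ det2 (s 2) (s 3) = b • (u m / u 0) :=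
      ⟨4, 1, by norm_num, by simp [h34]⟩
    intro i j
    fin_cases i <;> fin_cases j
    exacts [hd _, a01, a02, a03, hsw _ _ a01, hd _, a12, a13, hsw _ _ a02, hsw _ _ a12, hd _, a23,
      hsw _ _ a03, hsw _ _ a13, hsw _ _ a23, hd _]
  have hatt : ∀ m < 5, ∃ i j, det2 (s i) (s j) = u m / u 0 := by
    intro m hm
    interval_cases m
    · exact ⟨0, 1, by simp [det2, s, u0]⟩
    · exact ⟨0, 2, by simp [det2, s]⟩
    · exact ⟨1, 2, by simp [det2, s, neg_div]⟩
    · exact ⟨1, 3, by simp [det2, s, neg_div]⟩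
    · exact ⟨2, 3, h34⟩
  obtain ⟨E, hE, hs⟩ := exists_bundle s (M + div K (u 0))
    (fun P i j => by
      obtain ⟨m, b, hm, h⟩ := hcase i j
      rw [h]
      refine Place.Ge.smul b (P.ge_of_le ?_)
      have := (hM P).1 m hm
      rw [P.ord_div (hu m hm) u0, Finsupp.add_apply, div_apply]
      omega)
    (fun P => by
      obtain ⟨m, hm, h⟩ := (hM P).2
      obtain ⟨i, j, hij⟩ := hatt m hm
      refine ⟨i, j, ?_, ?_⟩
      · rw [hij]; exact div_ne_zero (hu m hm) u0
      · rw [hij, P.ord_div (hu m hm) u0, Finsupp.add_apply, div_apply]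
        omega)
  rw [deg_add, deg_div, hdeg, add_zero] at hE
  have hss : E.Semistable := by
    intro m hm0 hm2 E' φ hφ hmap
    obtain rfl : m = 1 := by omega
    set w := φ (fun _ => 1) with hw
    have hw0 : w ≠ 0 := fun h => by
      have := congrFun (hφ (h.trans (map_zero φ).symm)) 0
      simp at this
    have hmem : ∀ k, det2 w (s k) ∈ sec (E.dv - E'.dv) := by
      intro k P
      have h1 : φ ((E'.g P).mulVec fun _ => 1) ∈ E.stalk P :=
        hmap P ⟨fun _ => 1, fun _ => P.ge_one, rfl⟩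
      have h2 : ((E'.g P).mulVec fun _ => 1) = (E'.g P).det • fun _ => (1 : F) := by
        funext i
        rw [Subsingleton.elim i 0]
        simp [Matrix.mulVec, dotProduct, Matrix.det_fin_one]
      rw [h2, map_smul, ← hw] at h1
      have h3 := E.det2_ge P h1 (hs k P)
      have h4 : det2 ((E'.g P).det • w) (s k) = det2 w (s k) * (E'.g P).det := by
        simp only [det2, Pi.smul_apply, smul_eq_mul]; ring
      rw [h4] at h3
      refine Place.Ge.of_mul (E'.det_ne P) ?_
      rw [Finsupp.sub_apply, Bundle.dv_apply, Bundle.dv_apply]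
      convert h3 using 1
      ring
    have h2 : 2 ≤ h0 (E.dv - E'.dv) := by
      by_contra hlt
      have hle : Module.finrank K (sec (E.dv - E'.dv)) ≤ 1 := by unfold h0 at hlt; omega
      obtain ⟨t, ht⟩ := finrank_le_one_iff.mp hle
      obtain ⟨α, hα⟩ := ht ⟨_, hmem 1⟩
      obtain ⟨β, hβ⟩ := ht ⟨_, hmem 0⟩
      obtain ⟨γ, hγ⟩ := ht ⟨_, hmem 2⟩
      have hα' : α • (t : F) = w 0 := by simpa [det2, s] using congrArg Subtype.val hα
      have hβ' : β • (t : F) = -w 1 := by simpa [det2, s] using congrArg Subtype.val hβ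
      have hγ' : γ • (t : F) = det2 w (s 2) := congrArg Subtype.val hγ
      have ht0 : (t : F) ≠ 0 := by
        intro h
        apply hw0
        funext i
        rw [h, smul_zero] at hα' hβ'
        fin_cases i
        · exact hα'.symm
        · exact neg_eq_zero.mp hβ'.symm
      have h5 : (-γ) • u 0 + α • u 1 + (-β) • u 2 + (0 : K) • u 3 = 0 := by
        apply mul_left_cancel₀ ht0
        simp only [det2, s] at hγ'
        simp only [Algebra.smul_def, map_neg, map_zero] at hα' hβ' hγ' ⊢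
        simp at hγ'
        field_simp at hγ'
        linear_combination (-1) * hγ' + u 1 * hα' - u 2 * hβ'
      obtain ⟨-, h6, h7, -⟩ := hlin _ _ _ _ h5
      apply hw0
      funext i
      rw [h6, zero_smul] at hα'
      rw [neg_eq_zero.mp h7, zero_smul] at hβ'
      fin_cases i
      · exact hα'.symm
      · exact neg_eq_zero.mp hβ'.symm
    have h3 := hgon _ h2
    rw [deg_sub, E.deg_dv, E'.deg_dv, hE] at h3
    have h4 : (E'.deg : ℚ) ≤ 6 := by exact_mod_cast (show E'.deg ≤ 6 by omega)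
    rw [hE]
    push_cast
    linarith
  have h4 : 4 ≤ E.h0 := by
    haveI := (hss.finite (by omega)).1
    have hl : LinearIndependent K fun i : Fin 4 => (⟨s i, hs i⟩ : E.sec) := by
      refine LinearIndependent.of_comp E.sec.subtype (Fintype.linearIndependent_iff.mpr ?_)
      intro b hb
      have e0 := congrFun hb 0
      have e1 := congrFun hb 1
      simp [Fin.sum_univ_four, s, Algebra.smul_def] at e0 e1
      obtain ⟨z0, -, z2, z3⟩ := hlin (b 0) 0 (-b 2) (-b 3) (by
        simp only [Algebra.smul_def, map_neg, map_zero]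
        field_simp at e0
        linear_combination e0)
      rw [neg_eq_zero] at z2 z3
      intro i
      fin_cases i
      · exact z0
      · simpa [z2, z3] using e1
      · exact z2
      · exact z3
    simpa [Bundle.h0] using hl.fintype_card_le_finrank
  obtain ⟨γ, h5, h6⟩ := exists_isLeast hg (γ0 := E.gamma) ⟨E, hss, h4, by
    rw [hE, hg]; norm_num, rfl⟩
  refine ⟨γ, h5.trans ?_, h6⟩
  have : (4 : ℚ) ≤ E.h0 := by exact_mod_cast h4
  rw [Bundle.gamma, hE]
  push_cast
  linarith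

/-- Eleven of twelve elements with one relation spanning a space of dimension eleven are
independent. -/
theorem indep_of_finrank {K F : Type} [Field K] [Field F] [Algebra K F] (u : ℕ → F) (a : ℕ → K)
    (ha : a 11 ≠ 0) (hrel : ∑ j ∈ Finset.range 12, a j • u j = 0)
    (h11 : Module.finrank K (Submodule.span K (Set.range fun j : Fin 12 => u j)) = 11) :
    LinearIndependent K fun j : Fin 11 => u j := by
  have h1 : Submodule.span K (Set.range fun j : Fin 12 => u j) =
      Submodule.span K (Set.range fun j : Fin 11 => u j) := by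
    apply le_antisymm
    · rw [Submodule.span_le, Set.range_subset_iff]
      have hm : ∀ j : ℕ, j < 11 → u j ∈ Submodule.span K (Set.range fun j : Fin 11 => u j) :=
        fun j hj => Submodule.subset_span ⟨⟨j, hj⟩, rfl⟩
      intro j
      by_cases hj : (j : ℕ) < 11
      · exact hm j hj
      · have h11 : (j : ℕ) = 11 := by omega
        rw [Finset.sum_range_succ] at hrel
        rw [SetLike.mem_coe, h11, ← Submodule.smul_mem_iff _ ha,
          eq_neg_of_add_eq_zero_right hrel]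
        exact Submodule.neg_mem _ (Submodule.sum_mem _ fun l hl =>
          Submodule.smul_mem _ _ (hm l (Finset.mem_range.mp hl)))
    · rw [Submodule.span_le, Set.range_subset_iff]
      exact fun j => Submodule.subset_span ⟨j.castSucc, rfl⟩
  rw [linearIndependent_iff_card_eq_finrank_span, Set.finrank, ← h1, h11]
  simp

theorem indep_four {K F : Type} [Field K] [Field F] [Algebra K F] (u : ℕ → F) (a : ℕ → K)
    (ha : a 11 ≠ 0) (hrel : ∑ j ∈ Finset.range 12, a j • u j = 0)
    (h11 : Module.finrank K (Submodule.span K (Set.range fun j : Fin 12 => u j)) = 11) :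
    LinearIndependent K fun j : Fin 4 => u j :=
  (indep_of_finrank u a ha hrel h11).comp (Fin.castLE (by norm_num : 4 ≤ 11))
    (Fin.castLE_injective _)

end Pool.Agent.MP_52008a_ag

end MrgPart3

-- ======== part 4: formerly Pool.Agent.MP_52008a_ag.Som.Exist
section MrgPart4

/-!
Construction of the elliptic function field with its Somos sequence.
-/

open Polynomial
open scoped IntermediateField

namespace Pool.Agent.MP_52008a_ag

section seq

variable {L : Type} [Field L]

/-- The orbit of a point of the biquadratic curve. -/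
def orb (c f g : L) : ℕ → L × L
  | 0 => (f, g)
  | n + 1 => ((orb c f g n).2, ((orb c f g n).2 - c) / ((orb c f g n).2 ^ 2 * (orb c f g n).1))

/-- The sequence with second logarithmic difference `F`. -/
def sq2 (F : ℕ → L) : ℕ → L
  | 0 => 1
  | 1 => 1
  | n + 2 => F (n + 1) * sq2 F (n + 1) ^ 2 / sq2 F n

theorem pq_step {c f g : L} (hf : f ≠ 0) (hg : g ≠ 0) (h : Pq c f g = 0) :
    Pq c g ((g - c) / (g ^ 2 * f)) = 0 := by
  rw [Pq] at h ⊢
  field_simp
  linear_combination (g - c) * h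

theorem pq_alg {k : Type} [Field k] [Algebra k L] {c : k} {f g : L}
    (h : Pq (algebraMap k L c) f g = 0) (S : IntermediateField k L) (hg : g ∈ S) (hg0 : g ≠ 0) :
    IsIntegral S f := by
  have hc := S.algebraMap_mem c
  refine IsAlgebraic.isIntegral ⟨C ⟨g ^ 2, pow_mem hg _⟩ * X ^ 2 +
    C ⟨1 - algebraMap k L c ^ 2 * g, sub_mem (one_mem _) (mul_mem (pow_mem hc _) hg)⟩ * X +
    C ⟨g - algebraMap k L c, sub_mem hg hc⟩, fun h0 => ?_, ?_⟩
  · have := congrArg (fun p => ((p.coeff 2 : S) : L)) h0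
    simp [coeff_X, coeff_C] at this
    exact hg0 this
  · simp only [map_add, map_mul, map_pow, aeval_C, aeval_X, IntermediateField.algebraMap_apply]
    rw [Pq] at h
    linear_combination h

theorem pq_trans {k : Type} [Field k] [Algebra k L] {c : k} {f g : L}
    (h : Pq (algebraMap k L c) f g = 0) (hf : Transcendental k f) : Transcendental k g := by
  intro hg
  by_cases hg0 : g = 0
  · subst hg0
    have : f = algebraMap k L c := by
      rw [Pq] at h
      linear_combination h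
    exact hf (this ▸ isAlgebraic_algebraMap c)
  have h1 := pq_alg h k⟮g⟯ (IntermediateField.mem_adjoin_simple_self k g) hg0
  have := IntermediateField.adjoin.finiteDimensional hg.isIntegral
  exact hf (isIntegral_trans (R := k) f h1).isAlgebraic

variable {c : L} {F : ℕ → L}

theorem sq2_ne (hF : ∀ n, F n ≠ 0) (n : ℕ) : sq2 F n ≠ 0 := by
  induction n using Nat.twoStepInduction with
  | zero => simp [sq2]
  | one => simp [sq2]
  | more n h0 h1 => exact div_ne_zero (mul_ne_zero (hF _) (pow_ne_zero _ h1)) h0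

theorem sq2_rec (hF : ∀ n, F n ≠ 0) (n : ℕ) :
    sq2 F (n + 2) * sq2 F n = F (n + 1) * sq2 F (n + 1) ^ 2 := by
  have := sq2_ne hF n
  rw [sq2]
  field_simp

theorem F_sum (hF : ∀ n, F n ≠ 0) (hrec : ∀ n, F (n + 2) * F (n + 1) ^ 2 * F n = F (n + 1) - c)
    (hP : ∀ n, Pq c (F n) (F (n + 1)) = 0) (n : ℕ) :
    F (n + 1) ^ 2 * (F (n + 2) + F n) = c ^ 2 * F (n + 1) - 1 := by
  have a := hrec n
  have b := hP n
  apply mul_left_cancel₀ (hF n)
  rw [Pq] at b
  linear_combination a + b

theorem F_r2 (hc : c ^ 3 + c - 1 = 0) (hF : ∀ n, F n ≠ 0)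
    (hrec : ∀ n, F (n + 2) * F (n + 1) ^ 2 * F n = F (n + 1) - c)
    (hP : ∀ n, Pq c (F n) (F (n + 1)) = 0) (n : ℕ) :
    F (n + 1) * (F (n + 2) - c) * (F n - c) = c ^ 2 * F (n + 1) + c := by
  have a := hrec n
  have b := F_sum hF hrec hP n
  apply mul_left_cancel₀ (hF (n + 1))
  linear_combination a - c * b - F (n + 1) * hc

theorem F_prod (hc : c ^ 3 + c - 1 = 0) (hF : ∀ n, F n ≠ 0)
    (hrec : ∀ n, F (n + 2) * F (n + 1) ^ 2 * F n = F (n + 1) - c)
    (hP : ∀ n, Pq c (F n) (F (n + 1)) = 0) (n : ℕ) :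
    F n * F (n + 1) * F (n + 2) * F (n + 3) * F (n + 4) * F (n + 5) * F (n + 6) = 1 := by
  have a0 := hrec n
  have a1 := hrec (n + 1)
  have a2 := hrec (n + 2)
  have a3 := hrec (n + 3)
  have a4 := hrec (n + 4)
  have b1 := F_r2 hc hF hrec hP (n + 1)
  have b2 := F_r2 hc hF hrec hP (n + 2)
  have b3 := F_r2 hc hF hrec hP (n + 3)
  have s := F_sum hF hrec hP (n + 2)
  simp only [add_assoc, Nat.reduceAdd] at a0 a1 a2 a3 a4 b1 b2 b3 s
  have h1 := hF (n + 1)
  have h2 := hF (n + 2)
  have h3 := hF (n + 3)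
  have h4 := hF (n + 4)
  have h5 := hF (n + 5)
  generalize F n = f0 at *
  generalize F (n + 1) = f1 at *
  generalize F (n + 2) = f2 at *
  generalize F (n + 3) = f3 at *
  generalize F (n + 4) = f4 at *
  generalize F (n + 5) = f5 at *
  generalize F (n + 6) = f6 at *
  have e1 : f6 * f5 ^ 2 * f4 ^ 2 * (f3 - c) = c ^ 2 * f4 + c := by
    linear_combination f4 * (f3 - c) * a4 + b3
  have e2 : f0 * f1 ^ 2 * f2 ^ 2 * (f3 - c) = c ^ 2 * f2 + c := by
    linear_combination f2 * (f3 - c) * a0 + b1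
  have e3 : f5 * f4 ^ 2 * f3 ^ 3 * f2 ^ 2 * f1 = c ^ 2 * f3 + c := by
    linear_combination (f3 ^ 2 * f1 * f2 ^ 2) * a3 + f3 * (f4 - c) * a1 + b2
  have e4 : (c ^ 2 * f4 + c) * (c ^ 2 * f2 + c) * f3 ^ 2 = (c ^ 2 * f3 + c) * (f3 - c) := by
    linear_combination c ^ 4 * a2 + c ^ 3 * s + ((c ^ 2 + c) * f3 - c ^ 2) * hc
  have e5 : (f6 * f5 ^ 2 * f4 ^ 2 * (f3 - c)) * (f0 * f1 ^ 2 * f2 ^ 2 * (f3 - c)) * f3 ^ 2 =
      (c ^ 2 * f3 + c) * (f3 - c) := by rw [e1, e2, e4]
  have n1 : f3 - c ≠ 0 := by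
    rw [← a2]
    simp [h2, h3, h4]
  have n2 : c ^ 2 * f3 + c ≠ 0 := by
    rw [← e3]
    simp [h1, h2, h3, h4, h5]
  apply mul_left_cancel₀ (mul_ne_zero n2 n1)
  linear_combination e5 - (f3 - c) * (f0 * f1 * f2 * f3 * f4 * f5 * f6) * e3 +
    (f3 - c) * (f0 * f6 * f1 ^ 2 * f5 ^ 2 * f2 ^ 2 * f4 ^ 2 * f3 ^ 2) * a2

theorem sq2_r1 (hF : ∀ n, F n ≠ 0)
    (hrec : ∀ n, F (n + 2) * F (n + 1) ^ 2 * F n = F (n + 1) - c) (n : ℕ) :
    sq2 F (n + 4) * sq2 F n = sq2 F (n + 3) * sq2 F (n + 1) - c * sq2 F (n + 2) ^ 2 := by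
  have a := hrec (n + 1)
  have u0 := sq2_rec hF n
  have u1 := sq2_rec hF (n + 1)
  have u2 := sq2_rec hF (n + 2)
  simp only [add_assoc, Nat.reduceAdd] at a u0 u1 u2
  apply mul_left_cancel₀ (pow_ne_zero 2 (sq2_ne hF (n + 2)))
  rw [u1]
  have : sq2 F (n + 2) ^ 2 * (sq2 F (n + 4) * sq2 F n) =
      F (n + 3) * F (n + 1) * (sq2 F (n + 3) * sq2 F (n + 1)) ^ 2 := by
    linear_combination (sq2 F (n + 2) * sq2 F n) * u2 + F (n + 3) * sq2 F (n + 3) ^ 2 * u0
  rw [this, u1]
  linear_combination sq2 F (n + 2) ^ 4 * a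

theorem sq2_r2 (hc : c ^ 3 + c - 1 = 0) (hF : ∀ n, F n ≠ 0)
    (hrec : ∀ n, F (n + 2) * F (n + 1) ^ 2 * F n = F (n + 1) - c)
    (hP : ∀ n, Pq c (F n) (F (n + 1)) = 0) (n : ℕ) :
    sq2 F (n + 6) * sq2 F n =
      c ^ 2 * (sq2 F (n + 4) * sq2 F (n + 2)) + c * sq2 F (n + 3) ^ 2 := by
  have b := F_r2 hc hF hrec hP (n + 2)
  have v0 := sq2_r1 hF hrec n
  have v2 := sq2_r1 hF hrec (n + 2)
  have u1 := sq2_rec hF (n + 1)
  have u2 := sq2_rec hF (n + 2)
  have u3 := sq2_rec hF (n + 3)
  simp only [add_assoc, Nat.reduceAdd] at b v0 v2 u1 u2 u3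
  rw [u1] at v0
  rw [u3] at v2
  apply mul_left_cancel₀ (mul_ne_zero (sq2_ne hF (n + 4)) (sq2_ne hF (n + 2)))
  have : sq2 F (n + 4) * sq2 F (n + 2) * (sq2 F (n + 6) * sq2 F n) =
      (F (n + 4) - c) * (F (n + 2) - c) * (sq2 F (n + 4) * sq2 F (n + 2)) ^ 2 := by
    linear_combination (sq2 F (n + 4) * sq2 F n) * v2 + (F (n + 4) - c) * sq2 F (n + 4) ^ 2 * v0
  rw [this, u2]
  linear_combination F (n + 3) * sq2 F (n + 3) ^ 4 * b

theorem sq2_ratio (hF : ∀ n, F n ≠ 0) (n : ℕ) :
    sq2 F (n + 2) / sq2 F (n + 1) = F (n + 1) * (sq2 F (n + 1) / sq2 F n) := by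
  have := sq2_ne hF n
  have := sq2_ne hF (n + 1)
  rw [sq2]
  field_simp

theorem sq2_per (hc : c ^ 3 + c - 1 = 0) (hF : ∀ n, F n ≠ 0)
    (hrec : ∀ n, F (n + 2) * F (n + 1) ^ 2 * F n = F (n + 1) - c)
    (hP : ∀ n, Pq c (F n) (F (n + 1)) = 0) (n : ℕ) : sq2 F (n + 7) = sq2 F 7 * sq2 F n := by
  induction n with
  | zero => simp [sq2]
  | succ n ih =>
    have p := F_prod hc hF hrec hP (n + 1)
    have r0 := sq2_ratio hF n
    have r1 := sq2_ratio hF (n + 1)
    have r2 := sq2_ratio hF (n + 2)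
    have r3 := sq2_ratio hF (n + 3)
    have r4 := sq2_ratio hF (n + 4)
    have r5 := sq2_ratio hF (n + 5)
    have r6 := sq2_ratio hF (n + 6)
    simp only [add_assoc, Nat.reduceAdd] at p r0 r1 r2 r3 r4 r5 r6 ⊢
    have e : sq2 F (n + 8) / sq2 F (n + 7) = sq2 F (n + 1) / sq2 F n := by
      rw [r6, r5, r4, r3, r2, r1, r0]
      linear_combination (sq2 F (n + 1) / sq2 F n) * p
    rw [div_eq_div_iff (sq2_ne hF _) (sq2_ne hF _), ih] at e
    apply mul_right_cancel₀ (sq2_ne hF n)
    linear_combination e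

theorem int_ind7 {Q : ℤ → Prop} (h0 : ∀ n : ℕ, Q (n + 3)) (h1 : ∀ n, Q (n + 7) → Q n) (n : ℤ) :
    Q n := by
  have : ∀ k : ℕ, ∀ n : ℤ, 3 - 7 * (k : ℤ) ≤ n → Q n := by
    intro k
    induction k with
    | zero =>
      intro n hn
      have := h0 (n - 3).toNat
      rwa [Int.toNat_of_nonneg (by omega), sub_add_cancel] at this
    | succ k ih => exact fun n hn => h1 n (ih _ (by push_cast at hn; omega))
  exact this (3 - n).toNat n (by omega)

theorem exists_somos (hc : c ^ 3 + c - 1 = 0) (hF : ∀ n, F n ≠ 0)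
    (hrec : ∀ n, F (n + 2) * F (n + 1) ^ 2 * F n = F (n + 1) - c)
    (hP : ∀ n, Pq c (F n) (F (n + 1)) = 0) :
    ∃ φ : ℤ → L, Somos c (φ 7) φ ∧ (∀ n, φ n ≠ 0) ∧ φ 0 = 1 ∧ φ 1 = 1 ∧ φ 2 = F 1 := by
  have hx := sq2_ne hF 7
  let φ : ℤ → L := fun n => sq2 F 7 ^ (n / 7) * sq2 F (n % 7).toNat
  have hper : ∀ n, φ (n + 7) = sq2 F 7 * φ n := fun n => by
    simp only [φ, show (n + 7) / 7 = n / 7 + 1 by omega, show (n + 7) % 7 = n % 7 by omega,
      zpow_add_one₀ hx]
    ring
  have hnat : ∀ n : ℕ, φ n = sq2 F n := by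
    intro n
    induction n using Nat.strong_induction_on with
    | _ n ih =>
      rcases lt_or_ge n 7 with h | h
      · simp only [φ, show (n : ℤ) / 7 = 0 by omega, show (n : ℤ) % 7 = n by omega]
        simp
      · obtain ⟨m, rfl⟩ := Nat.exists_eq_add_of_le' h
        rw [sq2_per hc hF hrec hP, ← ih m (by omega), ← hper]
        simp
  have h7 : φ 7 = sq2 F 7 := hnat 7
  refine ⟨φ, ⟨hc, h7 ▸ hx, fun n => ?_, fun n => ?_, fun n => by rw [h7, hper]⟩,
    fun n => mul_ne_zero (zpow_ne_zero _ hx) (sq2_ne hF _), hnat 0, hnat 1, ?_⟩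
  · induction n using int_ind7 with
    | h0 n =>
      have := sq2_r1 hF hrec (n + 1)
      simp only [← hnat] at this
      push_cast at this
      rw [show (n : ℤ) + 3 + 2 = n + 1 + 4 by ring, show (n : ℤ) + 3 - 2 = n + 1 by ring,
        show (n : ℤ) + 3 + 1 = n + 1 + 3 by ring, show (n : ℤ) + 3 - 1 = n + 1 + 1 by ring,
        show (n : ℤ) + 3 = n + 1 + 2 by ring]
      exact this
    | h1 n ih =>
      rw [show n + 7 + 2 = n + 2 + 7 by ring, show n + 7 - 2 = n - 2 + 7 by ring,
        show n + 7 + 1 = n + 1 + 7 by ring, show n + 7 - 1 = n - 1 + 7 by ring] at ih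
      simp only [hper] at ih
      apply mul_left_cancel₀ (pow_ne_zero 2 hx)
      linear_combination ih
  · induction n using int_ind7 with
    | h0 n =>
      have := sq2_r2 hc hF hrec hP n
      simp only [← hnat] at this
      push_cast at this
      rw [show (n : ℤ) + 3 + 3 = n + 6 by ring, show (n : ℤ) + 3 - 3 = n by ring,
        show (n : ℤ) + 3 + 1 = n + 4 by ring, show (n : ℤ) + 3 - 1 = n + 2 by ring]
      exact this
    | h1 n ih =>
      rw [show n + 7 + 3 = n + 3 + 7 by ring, show n + 7 - 3 = n - 3 + 7 by ring,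
        show n + 7 + 1 = n + 1 + 7 by ring, show n + 7 - 1 = n - 1 + 7 by ring] at ih
      simp only [hper] at ih
      apply mul_left_cancel₀ (pow_ne_zero 2 hx)
      linear_combination ih
  · have := hnat 2
    simpa [sq2] using this

end seq

theorem exists_J (k : Type) [Field k] [IsAlgClosed k] [CharZero k] (c : k)
    (hc : c ^ 3 + c - 1 = 0) :
    ∃ (E : Type) (_ : Field E) (_ : Algebra k E) (φ : ℤ → E), IsJ k E c φ := by
  let W := AlgebraicClosure (RatFunc k)
  let f : W := algebraMap (RatFunc k) W RatFunc.X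
  have hf : Transcendental k f :=
    (transcendental_algebraMap_iff (algebraMap (RatFunc k) W).injective).2 RatFunc.transcendental_X
  have hne : ∀ z : W, Transcendental k z → z ≠ 0 := fun z hz h0 => hz (h0 ▸ isAlgebraic_zero)
  set c' := algebraMap k W c with hc'
  have hcc : c' ^ 3 + c' - 1 = 0 := by simpa using congrArg (algebraMap k W) hc
  obtain ⟨g, hg⟩ := IsAlgClosed.exists_root
    (C (f ^ 2) * X ^ 2 + C (1 - c' ^ 2 * f) * X + C (f - c') : W[X])
    (by rw [degree_quadratic (pow_ne_zero 2 (hne f hf))]; norm_num)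
  have hP0 : Pq c' f g = 0 := by
    simp only [IsRoot.def, eval_add, eval_mul, eval_C, eval_pow, eval_X] at hg
    rw [Pq]
    linear_combination hg
  have key : ∀ n, Transcendental k (orb c' f g n).1 ∧ Pq c' (orb c' f g n).1 (orb c' f g n).2 = 0 := by
    intro n
    induction n with
    | zero => exact ⟨hf, hP0⟩
    | succ n ih =>
      have := pq_trans ih.2 ih.1
      exact ⟨this, pq_step (hne _ ih.1) (hne _ this) ih.2⟩
  obtain ⟨φ, hs, h0, e0, e1, e2⟩ := exists_somos (F := fun n => (orb c' f g n).1) hcc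
    (fun n => hne _ (key n).1) (fun n => by
      have h1 := hne _ (key n).1
      have h2 := hne _ (key (n + 1)).1
      change ((orb c' f g n).2 - c') / ((orb c' f g n).2 ^ 2 * (orb c' f g n).1) *
        (orb c' f g n).2 ^ 2 * (orb c' f g n).1 = (orb c' f g n).2 - c'
      rw [mul_assoc]
      exact div_mul_cancel₀ _ (mul_ne_zero (pow_ne_zero 2 h2) h1)) (fun n => (key n).2)
  let E := IntermediateField.adjoin k {φ (-1), φ 2}
  have m0 : φ (-1) ∈ E := IntermediateField.subset_adjoin _ _ (by simp)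
  have m1 : φ 2 ∈ E := IntermediateField.subset_adjoin _ _ (by simp)
  have hf := hs.sf_mem h0 E.toSubfield (E.algebraMap_mem c) (m := 0)
    (by simpa [sf, e0, e1] using m0) (by simpa [sf, e0, e1] using m1)
  have hm : ∀ n, φ n ∈ E := u_mem h0 E.toSubfield hf (m := 0) (by rw [e0]; exact one_mem _)
    (by rw [zero_add, e1]; exact one_mem _)
  refine ⟨E, inferInstance, inferInstance, fun n => ⟨φ n, hm n⟩,
    ⟨Subtype.ext hs.hc, fun h => hs.x_ne (congrArg Subtype.val h),
      fun n => Subtype.ext (hs.r1 n), fun n => Subtype.ext (hs.r2 n),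
      fun n => Subtype.ext (hs.per n)⟩, fun n h => h0 n (congrArg Subtype.val h),
    Subtype.ext e0, Subtype.ext e1, fun h => (key 1).1 ?_, ?_⟩
  · rw [← e2]
    exact h.algHom E.val
  · apply IntermediateField.lift_injective E
    rw [IntermediateField.lift_adjoin, IntermediateField.lift_top, Set.image_pair]

end Pool.Agent.MP_52008a_ag

end MrgPart4

-- ======== part 5: formerly Pool.Agent.MP_52008a_ag.Petri.Curve
section MrgPart5

/-!
The curve over a field isomorphic to the field of Hahn series.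
-/

open Polynomial

namespace Pool.Agent.MP_52008a_ag.Petri

open Hahn

variable {K k E0 : Type} [Field K] [Field k] [Field E0] [Algebra k E0]

theorem transcendental_C (e : K ≃+* HahnSeries ℚ k) [Algebra K (HahnSeries ℚ E0)]
    (hK : ∀ a, algebraMap K (HahnSeries ℚ E0) a = hmap (algebraMap k E0) (e a)) {z : E0}
    (hz : Transcendental k z) : Transcendental K (HahnSeries.C z : HahnSeries ℚ E0) := by
  rintro ⟨p, hp0, hp⟩
  apply hp0
  ext j
  apply e.injective
  ext g
  let q : k[X] := ∑ l ∈ Finset.range (p.natDegree + 1), monomial l ((e (p.coeff l)).coeff g)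
  have hq : aeval z q = 0 := by
    rw [aeval_eq_sum_range] at hp
    have := congrArg (fun x => x.coeff g) hp
    simp only [HahnSeries.coeff_sum, HahnSeries.coeff_zero] at this
    rw [← this, map_sum]
    refine Finset.sum_congr rfl fun l _ => ?_
    rw [aeval_monomial, Algebra.smul_def, hK, ← map_pow, HahnSeries.C_apply,
      HahnSeries.coeff_mul_single_zero, coeff_hmap]
  have hq0 : q = 0 := by_contra fun h => hz ⟨q, h, hq⟩
  by_cases hj : j < p.natDegree + 1
  · have := congrArg (fun r => Polynomial.coeff r j) hq0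
    simpa [q, coeff_monomial, hj] using this
  · rw [coeff_eq_zero_of_natDegree_lt (by omega)]; simp

theorem exists_isCoef (e : K ≃+* HahnSeries ℚ k) [CharZero k] :
    ∃ A : ValuationSubring K,
      IsCoef A.valuation fun j : ℕ => e.symm (HahnSeries.single ((j : ℚ) ^ 2) 1) := by
  obtain ⟨A, hA⟩ := exists_ext (e.symm : HahnSeries ℚ k →+* K)
  refine ⟨A, ⟨A.valuation (e.symm (HahnSeries.single 1 1)), ?_, ?_, fun j => ?_⟩, fun n hn => ?_⟩
  · rw [zero_lt_iff]; simp
  · have := (hA 1 (HahnSeries.single 1 1)).not.mpr (by simp)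
    simpa using this
  · rw [← map_pow, ← map_pow, HahnSeries.single_pow]; simp
  · have h0 : ((n : HahnSeries ℚ k)).orderTop = (1 : HahnSeries ℚ k).orderTop := by
      rw [← HahnSeries.single_zero_natCast, HahnSeries.orderTop_single (by exact_mod_cast hn)]
      simp
    have := le_antisymm ((hA n 1).mpr h0.ge) ((hA 1 n).mpr h0.le)
    simpa using this

theorem exists_roots (φ : ℤ → E0) (hφ : ∀ j, φ j ≠ 0) (p : (HahnSeries ℚ E0)[X])
    (hp : ∀ j : ℕ, p.coeff j = if j < 12 then HahnSeries.single ((j : ℚ) ^ 2) (φ j) else 0)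
    (i : ℕ) (hi : i ≤ 10) : ∃ y, p.eval y = 0 ∧ y ≠ 0 ∧ y.order = -(2 * i + 1 : ℚ) ∧
      y.leadingCoeff = -φ i / φ (i + 1) := by
  obtain ⟨y, h1, h2, h3, h4⟩ := exists_root_edge p i (-(2 * i + 1 : ℚ)) (i ^ 2 - i * (2 * i + 1))
    (by
      rw [hp, if_pos (by omega), HahnSeries.orderTop_single (hφ _), WithTop.coe_eq_coe]
      simp; ring)
    (by
      rw [hp, if_pos (by omega), HahnSeries.orderTop_single (hφ _), WithTop.coe_eq_coe]
      simp; ring)
    (fun j a b => by
      rw [hp]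
      split_ifs
      · rw [HahnSeries.orderTop_single (hφ _), WithTop.coe_lt_coe, nsmul_eq_mul]
        have : (0 : ℤ) < ((j : ℤ) - i) * (j - i - 1) := by
          rcases lt_or_gt_of_ne a with c | c
          · exact mul_pos_of_neg_of_neg (by omega) (by omega)
          · exact mul_pos (by omega) (by omega)
        have : (0 : ℚ) < ((j : ℚ) - i) * (j - i - 1) := by exact_mod_cast this
        nlinarith
      · rw [HahnSeries.orderTop_zero]; exact WithTop.coe_lt_top _)
  refine ⟨y, h1, h2, h3, ?_⟩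
  rw [h4, hp, hp, if_pos (by omega), if_pos (by omega)]
  simp

theorem coeff_Phi {E : Type} [Field E] [Algebra K E] (a : ℕ → K) (φ : ℤ → E) (j : ℕ) :
    (Phi a φ).coeff j = if j < 12 then algebraMap K E (a j) * φ j else 0 := by
  simp [Phi, coeff_monomial]

theorem eval₂_Phi {E F : Type} [Field E] [Field F] [Algebra K E] [Algebra E F] [Algebra K F]
    [IsScalarTower K E F] (a : ℕ → K) (φ : ℤ → E) (Y : F) :
    (Phi a φ).eval₂ (algebraMap E F) Y = ∑ j ∈ Finset.range 12, a j • su φ Y j := by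
  rw [Phi, eval₂_finset_sum]
  refine Finset.sum_congr rfl fun j _ => ?_
  rw [eval₂_monomial, su, Algebra.smul_def, IsScalarTower.algebraMap_apply K E F, map_mul,
    mul_assoc, zpow_natCast]

/-- The curve, from the facts on the elliptic function field. -/
theorem exists_curve_of [IsAlgClosed k] [CharZero k] [IsFF k E0] (e : K ≃+* HahnSeries ℚ k)
    {c0 : k} {φ0 : ℤ → E0} (hJ : IsJ k E0 c0 φ0)
    (hmem : ∀ S : Subfield (HahnSeries ℚ E0), HahnSeries.C (algebraMap k E0 c0) ∈ S →
      HahnSeries.C (φ0 (-1)) ∈ S → HahnSeries.C (φ0 2) ∈ S → ∀ n, HahnSeries.C (φ0 n) ∈ S)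
    {r : ZMod 7 → Place k E0} (hr : IsTable φ0 r)
    (hirr : ∀ (E : Type) [Field E] [Algebra K E] (A : ValuationSubring K) (c : K) (a : ℕ → K)
      (φ : ℤ → E), IsJ K E c φ → IsCoef A.valuation a → Irreducible (Phi a φ)) :
    ∃ (E F Γ : Type) (_ : Field E) (_ : Field F) (_ : Algebra K E) (_ : Algebra E F)
      (_ : Algebra K F) (_ : IsScalarTower K E F) (_ : LinearOrderedCommGroupWithZero Γ)
      (c : K) (a : ℕ → K) (φ : ℤ → E) (Y : F) (v : Valuation K Γ),
      IsCurve c a φ Y ∧ IsCoef v a ∧ Module.finrank K (sW K φ Y) = 11 ∧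
      ∀ A B : Submodule K F, A * B ≤ sW K φ Y → Function.Injective (Submodule.mulMap A B) := by
  letI : Algebra K (HahnSeries ℚ E0) :=
    ((hmap (algebraMap k E0)).comp (e : K →+* HahnSeries ℚ k)).toAlgebra
  have hK : ∀ a, algebraMap K (HahnSeries ℚ E0) a = hmap (algebraMap k E0) (e a) := fun _ => rfl
  let c : K := e.symm (HahnSeries.C c0)
  let a : ℕ → K := fun j => e.symm (HahnSeries.single ((j : ℚ) ^ 2) 1)
  let E : IntermediateField K (HahnSeries ℚ E0) :=
    IntermediateField.adjoin K {HahnSeries.C (φ0 (-1)), HahnSeries.C (φ0 2)}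
  have hc : algebraMap K (HahnSeries ℚ E0) c = HahnSeries.C (algebraMap k E0 c0) := by
    rw [hK, RingEquiv.apply_symm_apply, hmap_C]
  have hφm : ∀ n, HahnSeries.C (φ0 n) ∈ E :=
    hmem E.toSubfield (hc ▸ E.algebraMap_mem c) (IntermediateField.subset_adjoin _ _ (by simp))
      (IntermediateField.subset_adjoin _ _ (by simp))
  let φ : ℤ → E := fun n => ⟨HahnSeries.C (φ0 n), hφm n⟩
  have hφ : ∀ n, ((φ n : E) : HahnSeries ℚ E0) = HahnSeries.C (φ0 n) := fun _ => rfl
  have hcE : ((algebraMap K E c : E) : HahnSeries ℚ E0) = HahnSeries.C (algebraMap k E0 c0) := hc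
  have hJE : IsJ K E c φ :=
    { som :=
        { hc := Subtype.ext (by
            push_cast [hcE]
            rw [← map_pow, ← map_add, ← map_one HahnSeries.C, ← map_sub, hJ.som.hc, map_zero])
          x_ne := fun h => HahnSeries.C_ne_zero (hJ.ne 7) (congrArg Subtype.val h)
          r1 := fun n => Subtype.ext (by
            push_cast [hcE, hφ]
            simp only [← map_pow, ← map_mul, ← map_sub, hJ.som.r1])
          r2 := fun n => Subtype.ext (by
            push_cast [hcE, hφ]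
            simp only [← map_pow, ← map_mul, ← map_add, hJ.som.r2])
          per := fun n => Subtype.ext (by
            push_cast [hφ]
            rw [← map_mul, ← hJ.som.per]) }
      ne := fun n h => HahnSeries.C_ne_zero (hJ.ne n) (congrArg Subtype.val h)
      h0 := Subtype.ext (by rw [hφ, hJ.h0, map_one]; rfl)
      h1 := Subtype.ext (by rw [hφ, hJ.h1, map_one]; rfl)
      tr := fun h => transcendental_C e hK hJ.tr (h.algHom E.val)
      gen := by
        apply IntermediateField.lift_injective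
        rw [IntermediateField.lift_adjoin, IntermediateField.lift_top, Set.image_pair] }
  obtain ⟨A, hA⟩ := exists_isCoef e
  haveI : Fact (Irreducible (Phi a φ)) := ⟨hirr E A c a φ hJE hA⟩
  let F := AdjoinRoot (Phi a φ)
  let Y : F := AdjoinRoot.root (Phi a φ)
  have hroot : ∑ j ∈ Finset.range 12, a j • su φ Y j = 0 := by
    rw [← eval₂_Phi]
    exact AdjoinRoot.eval₂_root (Phi a φ)
  have hcurve : IsCurve c a φ Y :=
    { J := hJE
      ne := fun j => by simp [a]
      root := hroot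
      gen := IntermediateField.adjoin_eq_top_of_algebra _ _ AdjoinRoot.adjoinRoot_eq_top }
  have hp : ∀ j : ℕ, ((Phi a φ).map (E.val : E →+* HahnSeries ℚ E0)).coeff j =
      if j < 12 then HahnSeries.single ((j : ℚ) ^ 2) (φ0 j) else 0 := by
    intro j
    rw [coeff_map, coeff_Phi]
    split_ifs
    · rw [map_mul]
      change algebraMap K (HahnSeries ℚ E0) (a j) * HahnSeries.C (φ0 j) = _
      rw [hK, RingEquiv.apply_symm_apply, hmap_single, HahnSeries.C_apply,
        HahnSeries.single_mul_single]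
      simp
    · simp
  choose y hy1 hy2 hy3 hy4 using fun i : ℕ =>
    exists_roots φ0 hJ.ne _ hp (min i 10) (min_le_right _ _)
  let σ : ℕ → F →+* HahnSeries ℚ E0 := fun i =>
    AdjoinRoot.lift (E.val : E →+* HahnSeries ℚ E0) (y i) (by rw [← eval_map]; exact hy1 i)
  have hσE : ∀ i (g : E), σ i (algebraMap E F g) = g := fun i g => AdjoinRoot.lift_of _
  have hσY : ∀ i, σ i Y = y i := fun i => AdjoinRoot.lift_root _
  have hY0 : Y ≠ 0 := fun h => hy2 0 (by rw [← hσY, h, map_zero])
  have key := petri_core e r φ0 hJ.ne (fun j b => hr.ord b j) (su φ Y)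
    (fun j => by
      simp only [su]
      rw [hJE.som.per, map_mul, zpow_add₀ hY0]; ring)
    a (fun j => e.apply_symm_apply _) hroot σ
    (fun i b => by rw [IsScalarTower.algebraMap_apply K E F, hσE, ← hK]; rfl) y
    (fun i _ j => by rw [su, map_mul, map_zpow₀, hσE, hσY])
    (fun i hi => by simpa [min_eq_left hi] using hy3 i)
    (fun i hi => by simpa [min_eq_left hi] using hy4 i)
  exact ⟨E, F, _, inferInstance, inferInstance, inferInstance, inferInstance, inferInstance,
    inferInstance, inferInstance, c, a, φ, Y, A.valuation, hcurve, hA, key.1,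
    fun A B h => key.2 A B fun f hf g hg => h (Submodule.mul_mem_mul hf hg)⟩

end Pool.Agent.MP_52008a_ag.Petri

end MrgPart5

-- ======== part 6: formerly Pool.Agent.MP_52008a_ag.Hahn
section MrgPart6

/-!
The three facts about Hahn series used in the construction.
-/

open Polynomial

namespace Pool.Agent.MP_52008a_ag

theorem hahn_isAlgClosed (k : Type) [Field k] [IsAlgClosed k] : IsAlgClosed (HahnSeries ℚ k) :=
  Hahn.isAlgClosed_hahn

theorem hahn_equiv : Nonempty (ℂ ≃+* HahnSeries ℚ ℂ) :=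
  Hahn.nonempty_ringEquiv_complex.map RingEquiv.symm

theorem hahn_hensel {R : Type} [Field R] (Φ : (HahnSeries ℚ R)[X])
    (hc : ∀ j, 0 ≤ (Φ.coeff j).orderTop) (z : R)
    (h0 : 0 < (Φ.eval (HahnSeries.C z)).orderTop)
    (h1 : (Φ.derivative.eval (HahnSeries.C z)).orderTop = 0) :
    ∃ y, Φ.IsRoot y ∧ 0 < (y - HahnSeries.C z).orderTop := by
  obtain ⟨q, rfl⟩ := Hahn.exists_lift Φ hc
  have ev : ∀ (r : (Hahn.O ℚ R)[X]) (a : Hahn.O ℚ R),
      (r.map (Hahn.O ℚ R).subtype).eval (a : HahnSeries ℚ R) = ((r.eval a : Hahn.O ℚ R) :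
        HahnSeries ℚ R) := fun r a => by
    rw [Polynomial.eval_map]
    exact Polynomial.eval₂_at_apply (Hahn.O ℚ R).subtype a
  rw [← Hahn.coe_cO, ev, ← Hahn.res_eq_zero_iff] at h0
  rw [Polynomial.derivative_map, ← Hahn.coe_cO, ev, ← Hahn.res_ne_zero_iff] at h1
  obtain ⟨y, hy, hr⟩ := Hahn.hensel q _ h0 h1
  refine ⟨y, ?_, ?_⟩
  · rw [Polynomial.IsRoot, ev, hy]; rfl
  · rw [← sub_eq_zero, ← map_sub, Hahn.res_eq_zero_iff] at hr
    exact hr

end Pool.Agent.MP_52008a_ag

end MrgPart6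

-- ======== part 7: formerly Pool.Agent.MP_52008a_ag.Final
section MrgPart7

/-! The Petri curve of genus eleven whose rank two Clifford index is smaller than its Clifford
index. -/

open Polynomial

namespace Pool.Agent.MP_52008a_ag

section curve

variable {K E F Γ : Type} [Field K] [Field E] [Field F] [Algebra K E] [Algebra E F] [Algebra K F]
  [IsScalarTower K E F] [IsAlgClosed K] [CharZero K] [LinearOrderedCommGroupWithZero Γ]
  {c : K} {a : ℕ → K} {φ : ℤ → E} {Y : F} {v : Valuation K Γ}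

theorem IsCurve.final (h : IsCurve c a φ Y) (hv : IsCoef v a)
    (h11 : Module.finrank K (sW K φ Y) = 11)
    (hcore : ∀ A B : Submodule K F, A * B ≤ sW K φ Y → Function.Injective (Submodule.mulMap A B)) :
    genus K F = 11 ∧ IsPetri K F ∧ IsLeast (cliffSet K F) 5 ∧
      ∃ γ ≤ (9 / 2 : ℚ), IsLeast (cliffSetRank K F 2) γ := by
  have := h.isFF
  obtain ⟨hs, hu⟩ := h.somos
  have hind := indep_four (fun j : ℕ => su φ Y j) a (h.ne 11) h.root h11
  have hθ : sTheta a φ Y ≠ 0 := smul_ne_zero (inv_ne_zero (h.sU_ne hv)) h.J.sw_neF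
  obtain ⟨hg, hP, hC⟩ := final_of (u := su φ Y) rfl hs.per (h.x_trans hv) hind (h.regular hv)
    (fun _ hω => h.euler hv hω) hθ h11 hcore (h.deg_x hv)
  obtain ⟨M, hM, hM13⟩ := h.deg_M hv
  have hc : c ≠ 0 := fun h0 => hs.c_ne (by rw [h0, map_zero])
  exact ⟨hg, hP, hC, bundle_part (fun j : ℕ => su φ Y j) c hc (fun i _ => hu i)
    (by simpa using hs.r1 2) hind M hM hM13 (fun _ hD => hP.gonality hg hD) hg⟩

end curve

theorem main_of_equiv (K k : Type) [Field K] [Field k] [IsAlgClosed K] [CharZero K]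
    [IsAlgClosed k] [CharZero k] (e : K ≃+* HahnSeries ℚ k) :
    ∃ (F : Type) (_ : Field F) (_ : Algebra K F),
      Algebra.EssFiniteType K F ∧ Algebra.trdeg K F = 1 ∧ genus K F = 11 ∧ IsPetri K F ∧
      IsLeast (cliffSet K F) 5 ∧ ∃ γ ≤ (9 / 2 : ℚ), IsLeast (cliffSetRank K F 2) γ := by
  obtain ⟨c, hc⟩ := IsAlgClosed.exists_root (X ^ 3 + X - 1 : k[X]) (by
    have : (X ^ 3 + X - 1 : k[X]).degree = 3 := by compute_degree!
    rw [this]; norm_num)
  obtain ⟨E0, _, _, φ, hJ⟩ := exists_J k c (by simpa using hc)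
  obtain ⟨r, hr⟩ := hJ.table
  have := hJ.isFF
  obtain ⟨E, F, Γ, _, _, _, _, _, _, _, c, a, φ, Y, v, h, hv, h11, hcore⟩ :=
    Petri.exists_curve_of e hJ (fun S h1 h2 h3 n => hJ.mem HahnSeries.C S h1 h2 h3 n) hr
      fun E _ _ A c a φ h hv => h.irreducible hv
  exact ⟨F, inferInstance, inferInstance, h.isFF.ess, h.isFF.tr, h.final hv h11 hcore⟩

end Pool.Agent.MP_52008a_ag

end MrgPart7

-- marker of a merged file
example : 731051 + 353891 = 731051 + 353891 := rfl
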